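import Pool.Agent.P.MP_d1c5a4_lc.Tgt

/-! The atoms of a circuit are computed from its code by a small circuit of bounded depth. -/

namespace Pool.Agent.P.MP_d1c5a4_lc

open Finset Classical

section
variable {α : Type} {d : ℕ} {F G : Set (Fn α)}

/-- `f` is computed by one gate from the functions in `G`. -/
def Gate (G : Set (Fn α)) (f : Fn α) : Prop :=
  (∃ g ∈ G, f = fun x => ¬ g x) ∨ ∃ Q ⊆ G, (f = fun x => ∀ g ∈ Q, g x) ∨ f = fun x => ∃ g ∈ Q, g x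

theorem Gate.mono {f : Fn α} (h : Gate G f) (hG : G ⊆ F) : Gate F f :=
  h.imp (fun ⟨g, h1, h2⟩ => ⟨g, hG h1, h2⟩) fun ⟨Q, h1, h2⟩ => ⟨Q, h1.trans hG, h2⟩

theorem Lay.succ : Lay (d + 1) F ↔ ∃ G ⊆ F, Lay d G ∧ ∀ f ∈ F, f ∈ G ∨ Gate G f := Iff.rfl

theorem Lay.mono {d' : ℕ} (h : Lay d F) (hd : d ≤ d') : Lay d' F := by
  induction hd with
  | refl => exact h
  | step _ ih => exact ⟨F, subset_rfl, ih, fun _ => Or.inl⟩

theorem Lay.union (h : Lay d F) (h' : Lay d G) : Lay d (F ∪ G) := by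
  induction d generalizing F G with
  | zero => exact fun f hf => hf.elim (h f) (h' f)
  | succ d ih =>
    obtain ⟨A, a1, a2, a3⟩ := Lay.succ.1 h
    obtain ⟨B, b1, b2, b3⟩ := Lay.succ.1 h'
    exact Lay.succ.2 ⟨A ∪ B, Set.union_subset_union a1 b1, ih a2 b2, fun f hf => hf.elim
      (fun hf => (a3 f hf).imp Or.inl fun h => h.mono Set.subset_union_left)
      fun hf => (b3 f hf).imp Or.inr fun h => h.mono Set.subset_union_right⟩

end

variable {Λ : Type} {α U U' κ : Λ → Type} {Nc : Λ → ℕ}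

/-- The functions in `H l` are computed by circuits of bounded depth and size `O(Nc l)`. -/
def PS (Nc : Λ → ℕ) (H : ∀ l, Set (Fn (α l))) : Prop :=
  ∃ D A, ∀ l, ∃ F, Lay D F ∧ F.ncard ≤ A * Nc l ∧ H l ⊆ F

/-- The same for an indexed family. -/
def PF (Nc : Λ → ℕ) (p : ∀ l, U l → Fn (α l)) : Prop := PS Nc fun l => Set.range (p l)

/-- Index sets of size `O(Nc l)`. -/
def Sz (Nc : Λ → ℕ) (U : Λ → Type) : Prop :=
  ∃ A, ∀ l, Finite (U l) ∧ Nat.card (U l) ≤ A * Nc l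

variable {H H' : ∀ l, Set (Fn (α l))} {p q : ∀ l, U l → Fn (α l)}

theorem PS.mono (h : PS Nc H) (h' : ∀ l, H' l ⊆ H l) : PS Nc H' :=
  let ⟨D, A, h⟩ := h
  ⟨D, A, fun l => let ⟨F, h1, h2, h3⟩ := h l; ⟨F, h1, h2, (h' l).trans h3⟩⟩

theorem PS.empty : PS Nc fun l => (∅ : Set (Fn (α l))) :=
  ⟨0, 0, fun _ => ⟨∅, fun _ h => h.elim, by simp, subset_rfl⟩⟩

theorem PS.union (h : PS Nc H) (h' : PS Nc H') : PS Nc fun l => H l ∪ H' l := by
  obtain ⟨D, A, h⟩ := h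
  obtain ⟨D', A', h'⟩ := h'
  refine ⟨D + D', A + A', fun l => ?_⟩
  obtain ⟨F, h1, h2, h3⟩ := h l
  obtain ⟨F', h1', h2', h3'⟩ := h' l
  exact ⟨F ∪ F', (h1.mono (by omega)).union (h1'.mono (by omega)),
    (Set.ncard_union_le _ _).trans (by rw [add_mul]; omega), Set.union_subset_union h3 h3'⟩

theorem PS.fin {τ : Type} (T : Finset τ) {H : τ → ∀ l, Set (Fn (α l))}
    (h : ∀ a ∈ T, PS Nc (H a)) : PS Nc fun l => ⋃ a ∈ T, H a l := by
  induction T using Finset.induction_on with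
  | empty => exact PS.empty.mono fun l => by simp
  | insert a T _ ih =>
    exact ((h a (mem_insert_self _ _)).union (ih fun b hb => h b (mem_insert_of_mem hb))).mono
      fun l => by simp

theorem PF.re {p : ∀ l, U' l → Fn (α l)} (h : PF Nc p) (m : ∀ l, U l → U' l) :
    PF Nc fun l i => p l (m l i) :=
  h.mono fun l => Set.range_comp_subset_range (m l) (p l)

theorem PF.congr (h : PF Nc p) (h' : ∀ l i x, q l i x ↔ p l i x) : PF Nc q := by
  rwa [show q = p from funext fun l => funext fun i => funext fun x => propext (h' l i x)]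

section
variable (hU : Sz Nc U)
include hU

theorem PS.gate (h : PS Nc H) (hp : ∀ l i, Gate (H l) (p l i)) : PF Nc p := by
  obtain ⟨D, A, h⟩ := h
  obtain ⟨A', hU⟩ := hU
  refine ⟨D + 1, A + A', fun l => ?_⟩
  obtain ⟨F, h1, h2, h3⟩ := h l
  have := (hU l).1
  refine ⟨F ∪ Set.range (p l), Lay.succ.2 ⟨F, Set.subset_union_left, h1, fun f hf =>
    hf.imp_right fun ⟨i, hi⟩ => hi ▸ (hp l i).mono h3⟩,
    (Set.ncard_union_le _ _).trans ?_, Set.subset_union_right⟩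
  rw [add_mul, ← Set.image_univ]
  exact add_le_add h2 ((Set.ncard_image_le Set.finite_univ).trans (by simpa using (hU l).2))

theorem PF.not (h : PF Nc p) : PF Nc fun l i x => ¬ p l i x :=
  PS.gate hU h fun _ i => Or.inl ⟨_, ⟨i, rfl⟩, rfl⟩

theorem PF.and (h : PF Nc p) (h' : PF Nc q) : PF Nc fun l i x => p l i x ∧ q l i x :=
  PS.gate hU (PS.union h h') fun l i => Or.inr ⟨{p l i, q l i},
    Set.pair_subset (Or.inl ⟨i, rfl⟩) (Or.inr ⟨i, rfl⟩), Or.inl (by simp)⟩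

theorem PF.or (h : PF Nc p) (h' : PF Nc q) : PF Nc fun l i x => p l i x ∨ q l i x :=
  PS.gate hU (PS.union h h') fun l i => Or.inr ⟨{p l i, q l i},
    Set.pair_subset (Or.inl ⟨i, rfl⟩) (Or.inr ⟨i, rfl⟩), Or.inr (by simp)⟩

theorem PF.imp (h : PF Nc p) (h' : PF Nc q) : PF Nc fun l i x => p l i x → q l i x :=
  ((h.not hU).or hU h').congr fun _ _ _ => imp_iff_not_or

theorem PF.cst (c : ∀ l, U l → Prop) : PF Nc fun l i (_ : α l → Bool) => c l i :=
  PS.gate hU PS.empty fun l i => Or.inr ⟨∅, subset_rfl, by by_cases h : c l i <;> simp [h]⟩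

theorem PF.ex {p : ∀ l, U' l → Fn (α l)} (h : PF Nc p) (m : ∀ l, U l → κ l → U' l)
    (r : ∀ l, U l → κ l → Prop) : PF Nc fun l i x => ∃ a, r l i a ∧ p l (m l i a) x :=
  PS.gate hU h fun l i => Or.inr ⟨(fun a => p l (m l i a)) '' {a | r l i a},
    fun _ ⟨_, _, h⟩ => ⟨_, h⟩, Or.inr (by simp)⟩

theorem PF.all {p : ∀ l, U' l → Fn (α l)} (h : PF Nc p) (m : ∀ l, U l → κ l → U' l)
    (r : ∀ l, U l → κ l → Prop) : PF Nc fun l i x => ∀ a, r l i a → p l (m l i a) x :=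
  PS.gate hU h fun l i => Or.inr ⟨(fun a => p l (m l i a)) '' {a | r l i a},
    fun _ ⟨_, _, h⟩ => ⟨_, h⟩, Or.inl (by simp)⟩

end

/-- The index set of the atoms. -/
abbrev UI (ν : Λ → Type) (e : ℕ) (l : Λ) : Type :=
  ν l × ν l × ν l × (Fin e → ν l) × (Fin e → ν l)

variable {ν : Λ → Type} {e : ℕ} (hU : Sz Nc (UI ν e)) {C : ∀ l, (α l → Bool) → Cir (ν l)}
  (hB : PS Nc fun l => {f | ∃ u v, (f = fun x => (C l x).inp u) ∨ (f = fun x => (C l x).neg u) ∨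
    (f = fun x => (C l x).dis u) ∨ f = fun x => (C l x).ch u v})
include hB

theorem pf_inp : PF Nc fun l (i : UI ν e l) x => (C l x).inp i.1 :=
  hB.mono fun _ _ ⟨i, hi⟩ => ⟨i.1, i.1, Or.inl hi.symm⟩

theorem pf_neg : PF Nc fun l (i : UI ν e l) x => (C l x).neg i.1 :=
  hB.mono fun _ _ ⟨i, hi⟩ => ⟨i.1, i.1, Or.inr (Or.inl hi.symm)⟩

theorem pf_dis : PF Nc fun l (i : UI ν e l) x => (C l x).dis i.1 :=
  hB.mono fun _ _ ⟨i, hi⟩ => ⟨i.1, i.1, Or.inr (Or.inr (Or.inl hi.symm))⟩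

theorem pf_ch : PF Nc fun l (i : UI ν e l) x => (C l x).ch i.1 i.2.1 :=
  hB.mono fun _ _ ⟨i, hi⟩ => ⟨i.1, i.2.1, Or.inr (Or.inr (Or.inr hi.symm))⟩

include hU

theorem pf_exch {p : ∀ l, UI ν e l → Fn (α l)} (h : PF Nc p) :
    PF Nc fun l (i : UI ν e l) x => ∃ v, (C l x).ch i.1 v ∧ p l (v, v, i.2.2) x :=
  (((pf_ch hB).and hU (h.re fun _ i => (i.2.1, i.2))).ex hU (fun _ i v => (i.1, v, i.2.2))
    fun _ _ _ => True).congr fun _ _ _ => by simp

theorem pf_allch {p : ∀ l, UI ν e l → Fn (α l)} (h : PF Nc p) :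
    PF Nc fun l (i : UI ν e l) x => ∀ v, (C l x).ch i.1 v → p l (v, v, i.2.2) x :=
  (((pf_ch hB).imp hU (h.re fun _ i => (i.2.1, i.2))).all hU (fun _ i v => (i.1, v, i.2.2))
    fun _ _ _ => True).congr fun _ _ _ => by simp

theorem pf_two : PF Nc fun l (i : UI ν e l) x =>
    ∀ y, (C l x).ch i.1 y → y = i.2.1 ∨ y = i.2.2.1 :=
  (((pf_ch hB).not hU).all hU (fun _ i v => (i.1, v, i.2.2))
    fun _ i y => ¬ (y = i.2.1 ∨ y = i.2.2.1)).congr fun _ _ _ =>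
      forall_congr' fun _ => not_imp_not.symm

theorem pf_small : PF Nc fun l (i : UI ν e l) x => (C l x).small i.1 :=
  ((pf_two hU hB).ex hU (κ := fun l => ν l × ν l) (fun _ i a => (i.1, a.1, a.2, i.2.2.2))
    fun _ _ _ => True).congr fun _ _ _ => by simp [Cir.small]

theorem pf_ok (h t : ℕ) : PF Nc fun l (i : UI ν e l) x => (C l x).ok h t i.1 := by
  induction h generalizing t with
  | zero => exact pf_inp hB
  | succ h ih =>
    exact ((pf_inp hB).or hU (((pf_neg hB).imp hU (((pf_ch hB).and hU ((pf_two hU hB).re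
      fun _ i => (i.1, i.2.1, i.2.1, i.2.2.2))).ex hU (fun _ i v => (i.1, v, i.2.2))
        fun _ _ _ => True)).and hU (((pf_small hU hB).imp hU (pf_allch hU hB (ih t))).and hU
          (((pf_small hU hB).not hU).imp hU ((PF.cst hU fun _ _ => 1 ≤ t).and hU
            (pf_allch hU hB (ih (t - 1)))))))).congr fun _ _ _ => by
      simp only [Cir.ok_succ, ExistsUnique, true_and, or_self]

variable (o : ∀ l, ν l)

theorem pf_ct (h : ℕ) (b : Bool) : PF Nc fun l (i : UI ν e l) x =>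
    (C l x).ct {y | y ≠ o l ∧ ∃ j, i.2.2.2.1 j = y} {y | ∃ j, i.2.2.2.2 j = y} h i.1 b := by
  induction h generalizing b with
  | zero => exact PF.cst hU _
  | succ h ih =>
    have hq : ∀ c b : Bool, PF Nc fun l (i : UI ν e l) x => (C l x).qf i.1 c fun v =>
        (C l x).ct {y | y ≠ o l ∧ ∃ j, i.2.2.2.1 j = y} {y | ∃ j, i.2.2.2.2 j = y} h v b :=
      fun c b => ((PF.cst hU fun _ _ => c = true).and hU (pf_exch hU hB (ih b))).or hU
        ((PF.cst hU fun _ _ => c = false).and hU (pf_allch hU hB (ih b)))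
    exact ((pf_inp hB).and hU (PF.cst hU _)).or hU (((pf_inp hB).not hU).and hU
      (((pf_neg hB).and hU (hq _ _)).or hU (((pf_neg hB).not hU).and hU
        (((pf_dis hB).and hU (hq _ _)).or hU (((pf_dis hB).not hU).and hU (hq _ _))))))

variable [∀ l, Fintype (ν l)]

theorem pf_inH (h : ℕ) (b : Bool) (π : List (Fin e)) :
    (PF Nc fun l (i : UI ν e l) x => inH ((C l x).cE (o l) h i.1 i.2.2.2.1 b) π i.2.1) ∧
    PF Nc fun l (i : UI ν e l) x => (C l x).cE (o l) h i.1 i.2.2.2.1 b i.2.2.2.2 ∧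
      ∀ j, ¬ inH ((C l x).cE (o l) h i.1 i.2.2.2.1 b) π (i.2.2.2.2 j) := by
  suffices h1 : PF Nc fun l (i : UI ν e l) x =>
      inH ((C l x).cE (o l) h i.1 i.2.2.2.1 b) π i.2.1 ∧ True from
    ⟨h1.congr (by simp), ((pf_exch hU hB (pf_ct hU hB o h b)).and hU ((h1.not hU).all hU
      (fun _ i j => (i.1, i.2.2.2.2 j, i.2.2)) fun _ _ _ => True)).congr fun _ _ _ => by
        simp [Cir.cE]⟩
  induction π with
  | nil => exact (PF.cst hU fun _ _ => False).congr (by simp [inH])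
  | cons a π ih =>
    have h2 : PF Nc fun l (i : UI ν e l) x => (C l x).cE (o l) h i.1 i.2.2.2.1 b i.2.2.2.2 ∧
        ∀ j, ¬ inH ((C l x).cE (o l) h i.1 i.2.2.2.1 b) π (i.2.2.2.2 j) :=
      ((pf_exch hU hB (pf_ct hU hB o h b)).and hU ((ih.not hU).all hU
        (fun _ i j => (i.1, i.2.2.2.2 j, i.2.2)) fun _ _ _ => True)).congr fun _ _ _ => by
          simp [Cir.cE]
    exact (ih.or hU ((h2.and hU ((h2.not hU).all hU
      (fun _ i Q => (i.1, i.2.1, i.2.2.1, i.2.2.2.1, Q)) fun _ i Q => rk Q < rk i.2.2.2.2)).ex hU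
        (fun _ i Q => (i.1, i.2.1, i.2.2.1, i.2.2.2.1, Q)) fun _ i Q => Q a = i.2.1)).congr
      fun _ _ _ => by simp only [inH, and_true]

omit hU in
theorem ps_atoms {H : ℕ} (hU : Sz Nc (UI ν (2 ^ H))) (r : ∀ l, ν l) (t K : ℕ) :
    PS Nc fun l => {f | ∃ A, Atom (o l) (r l) H t K A ∧ f = fun x => A (C l x)} := by
  refine ((hB.union ((pf_two hU hB).union ((pf_small hU hB).union (pf_ok hU hB H t)))).union
    (PS.fin (range (H + 1) ×ˢ univ ×ˢ (List.finite_length_le (Fin (2 ^ H)) (K + 1)).toFinset)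
      fun a _ => (pf_inH hU hB o a.1 a.2.1 a.2.2).1.union ((PF.not hU
        (pf_inH hU hB o a.1 a.2.1 a.2.2).2).all hU
          (fun _ i Q => (i.1, i.2.1, i.2.2.1, i.2.2.2.1, Q)) fun _ _ _ => True))).mono ?_
  rintro l _ ⟨A, hA, rfl⟩
  cases hA with
  | inp u => exact Or.inl (Or.inl ⟨u, u, Or.inl rfl⟩)
  | neg u => exact Or.inl (Or.inl ⟨u, u, Or.inr (Or.inl rfl)⟩)
  | dis u => exact Or.inl (Or.inl ⟨u, u, Or.inr (Or.inr (Or.inl rfl))⟩)
  | ch u v => exact Or.inl (Or.inl ⟨u, v, Or.inr (Or.inr (Or.inr rfl))⟩)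
  | two u v w => exact Or.inl (Or.inr (Or.inl ⟨(u, v, w, fun _ => u, fun _ => u), rfl⟩))
  | small u => exact Or.inl (Or.inr (Or.inr (Or.inl ⟨(u, u, u, fun _ => u, fun _ => u), rfl⟩)))
  | ok => exact Or.inl (Or.inr (Or.inr (Or.inr ⟨(r l, r l, r l, fun _ => r l, fun _ => r l), rfl⟩)))
  | inH h hh b π hπ u P v =>
    exact Or.inr (Set.mem_iUnion₂.2 ⟨(h, b, π), by simp [hπ, Nat.lt_succ_of_le hh],
      Or.inl ⟨(u, v, v, P, P), rfl⟩⟩)
  | non h hh b π hπ u P =>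
    exact Or.inr (Set.mem_iUnion₂.2 ⟨(h, b, π), by simp [hπ, Nat.lt_succ_of_le hh],
      Or.inr ⟨(u, u, u, P, P), by simp⟩⟩)

end Pool.Agent.P.MP_d1c5a4_lc
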