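import Pool.Agent.P.MP_d1c5a4_lc.Jun

/-! Facts on circuits: certificates for the value of a small circuit, and hitting sets. -/

namespace Pool.Agent.P.MP_d1c5a4_lc

open Finset Classical

variable {ν : Type} (C : Cir ν)

theorem Cir.ok_succ (h t : ℕ) (u : ν) : C.ok (h + 1) t u ↔ C.inp u ∨ ((C.neg u → ∃! v, C.ch u v) ∧
    (C.small u → ∀ v, C.ch u v → C.ok h t v) ∧
    (¬ C.small u → 1 ≤ t ∧ ∀ v, C.ch u v → C.ok h (t - 1) v)) := Iff.rfl

theorem Cir.val_succ (V : Set ν) (h : ℕ) (u : ν) : C.val V (h + 1) u ↔ (C.inp u → u ∈ V) ∧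
    (¬ C.inp u → (C.neg u → ¬ ∀ v, C.ch u v → C.val V h v) ∧
      (¬ C.neg u → (C.dis u → ∃ v, C.ch u v ∧ C.val V h v) ∧
        (¬ C.dis u → ∀ v, C.ch u v → C.val V h v))) := Iff.rfl

theorem Cir.ok_mono {h t t' : ℕ} {u : ν} (ht : t ≤ t') (hu : C.ok h t u) : C.ok h t' u := by
  induction h generalizing t t' u with
  | zero => exact hu
  | succ h ih =>
    exact hu.imp_right fun ⟨h1, h2, h3⟩ => ⟨h1, fun a v b => ih ht (h2 a v b),
      fun a => ⟨(h3 a).1.trans ht, fun v b => ih (by omega) ((h3 a).2 v b)⟩⟩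

theorem Cir.ok_ch {h t : ℕ} {u v : ν} (hu : C.ok (h + 1) t u) (hi : ¬ C.inp u) (hv : C.ch u v) :
    C.ok h t v := by
  obtain ⟨-, h2, h3⟩ := hu.resolve_left hi
  by_cases hs : C.small u
  · exact h2 hs v hv
  · exact C.ok_mono (by omega) ((h3 hs).2 v hv)

/-- Quantification over the children. -/
def Cir.qf (u : ν) (c : Bool) (P : ν → Prop) : Prop :=
  (c = true ∧ ∃ v, C.ch u v ∧ P v) ∨ (c = false ∧ ∀ v, C.ch u v → P v)

/-- The partial assignment `A ↦ true`, `B ↦ false` forces the value `b` at `u`. -/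
def Cir.ct (A B : Set ν) : ℕ → ν → Bool → Prop
  | 0, u, b => (b = true ∧ u ∈ A) ∨ (b = false ∧ u ∈ B)
  | h + 1, u, b => (C.inp u ∧ ((b = true ∧ u ∈ A) ∨ (b = false ∧ u ∈ B))) ∨
      (¬ C.inp u ∧ ((C.neg u ∧ C.qf u b fun v => ct A B h v (!b)) ∨
        (¬ C.neg u ∧ ((C.dis u ∧ C.qf u b fun v => ct A B h v b) ∨
          (¬ C.dis u ∧ C.qf u (!b) fun v => ct A B h v b)))))

theorem Cir.ct_sound {A B V : Set ν} (hA : ∀ y ∈ A, y ∈ V) (hB : ∀ y ∈ B, y ∉ V) {h : ℕ} {u : ν}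
    {b : Bool} (hc : C.ct A B h u b) : C.val V h u ↔ b = true := by
  induction h generalizing u b with
  | zero =>
    rcases hc with ⟨rfl, h⟩ | ⟨rfl, h⟩
    · exact iff_of_true (hA u h) rfl
    · exact iff_of_false (hB u h) (by simp)
  | succ h ih =>
    have i1 : ∀ v, C.ct A B h v true → C.val V h v := fun v hv => (ih hv).2 rfl
    have i2 : ∀ v, C.ct A B h v false → ¬ C.val V h v := fun v hv h => by simpa using (ih hv).1 h
    rw [C.val_succ]
    cases b <;> simp only [Cir.ct, Cir.qf, Bool.not_true, Bool.not_false, Bool.false_eq_true,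
      Bool.true_eq_false, false_and, true_and, false_or, or_false, iff_false, iff_true] at hc ⊢ <;>
      grind

theorem Cir.ct_complete (V : Set ν) {h : ℕ} {u : ν} (hu : C.ok h 0 u) :
    ∃ D : Finset ν, D.card ≤ 2 ^ h ∧ (∀ y ∈ D, C.inp y) ∧ ∀ A B : Set ν,
      (∀ y ∈ D, y ∈ V → y ∈ A) → (∀ y ∈ D, y ∉ V → y ∈ B) →
      ∀ b : Bool, (C.val V h u ↔ b = true) → C.ct A B h u b := by
  induction h generalizing u with
  | zero =>
    refine ⟨{u}, le_rfl, fun y hy => by rw [mem_singleton.1 hy]; exact hu,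
      fun A B hA hB b hb => ?_⟩
    have hb' : u ∈ V ↔ b = true := hb
    cases b <;> simp_all [Cir.ct]
  | succ h ih =>
    by_cases hi : C.inp u
    · refine ⟨{u}, Nat.one_le_two_pow, by simpa using hi, fun A B hA hB b hb => ?_⟩
      cases b <;> simp_all [Cir.ct, Cir.val_succ]
    have h1 : ∀ v, ∃ D : Finset ν, D.card ≤ 2 ^ h ∧ (∀ y ∈ D, C.inp y) ∧ (C.ch u v → ∀ A B : Set ν,
        (∀ y ∈ D, y ∈ V → y ∈ A) → (∀ y ∈ D, y ∉ V → y ∈ B) →
        ∀ b : Bool, (C.val V h v ↔ b = true) → C.ct A B h v b) := fun v => by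
      by_cases hv : C.ch u v
      · obtain ⟨D, a1, a2, a3⟩ := ih (C.ok_ch hu hi hv)
        exact ⟨D, a1, a2, fun _ => a3⟩
      · exact ⟨∅, by simp, by simp, fun h => absurd h hv⟩
    choose D d1 d2 d3 using h1
    obtain ⟨v, w, hs⟩ : C.small u := by
      by_contra hs
      have := ((hu.resolve_left hi).2.2 hs).1
      omega
    refine ⟨D v ∪ D w, (card_union_le _ _).trans (by have := d1 v; have := d1 w; omega),
      fun y hy => (mem_union.1 hy).elim (d2 v y) (d2 w y), fun A B hA hB b hb => ?_⟩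
    have i0 : ∀ y, C.ch u y → ∀ b : Bool, (C.val V h y ↔ b = true) → C.ct A B h y b := fun y hy => by
      have : D y ⊆ D v ∪ D w := by
        rcases hs y hy with rfl | rfl
        · exact subset_union_left
        · exact subset_union_right
      exact d3 y hy A B (fun a ha => hA a (this ha)) fun a ha => hB a (this ha)
    have i1 : ∀ y, C.ch u y → C.val V h y → C.ct A B h y true := fun y hy h => i0 y hy _ (by simpa)
    have i2 : ∀ y, C.ch u y → ¬ C.val V h y → C.ct A B h y false :=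
      fun y hy h => i0 y hy _ (by simpa)
    rw [C.val_succ] at hb
    clear i0 hA hB d1 d2 d3 hs ih hu
    by_cases hn : C.neg u <;> by_cases hd : C.dis u <;> cases b <;>
      simp only [Cir.ct, Cir.qf, Bool.not_true, Bool.not_false, Bool.false_eq_true,
        Bool.true_eq_false, false_and, true_and, false_or, or_false, iff_false, iff_true, hi, hn, hd,
        not_true, not_false_eq_true, true_imp_iff, false_imp_iff, and_true] at hb ⊢ <;>
      grind

/-- Transfer along an embedding of circuits. -/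
theorem Cir.transfer {ν' : Type} (C' : Cir ν') {φ : ν → ν'} (hφ : Function.Injective φ)
    (h1 : ∀ u, C'.inp (φ u) ↔ C.inp u) (h2 : ∀ u, C'.neg (φ u) ↔ C.neg u)
    (h3 : ∀ u, C'.dis (φ u) ↔ C.dis u) (h4 : ∀ u y, C'.ch (φ u) y ↔ ∃ v, φ v = y ∧ C.ch u v)
    (h : ℕ) : (∀ t u, C'.ok h t (φ u) ↔ C.ok h t u) ∧
      ∀ V u, C'.val V h (φ u) ↔ C.val (φ ⁻¹' V) h u := by
  have e0 : ∀ u (P : ν' → Prop), (∀ y, C'.ch (φ u) y → P y) ↔ ∀ v, C.ch u v → P (φ v) :=
    fun u P => ⟨fun a v b => a _ ((h4 _ _).2 ⟨v, rfl, b⟩), fun a y b => by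
      obtain ⟨v, rfl, c⟩ := (h4 _ _).1 b
      exact a v c⟩
  induction h with
  | zero => exact ⟨fun t u => h1 u, fun _ _ => Iff.rfl⟩
  | succ h ih =>
    refine ⟨fun t u => ?_, fun V u => ?_⟩
    · have e1 : (∃! y, C'.ch (φ u) y) ↔ ∃! v, C.ch u v := by
        constructor
        · rintro ⟨y, b1, b2⟩
          obtain ⟨v, rfl, c⟩ := (h4 _ _).1 b1
          exact ⟨v, c, fun w hw => hφ ((e0 u _).1 b2 w hw)⟩
        · rintro ⟨v, b1, b2⟩
          exact ⟨φ v, (h4 _ _).2 ⟨v, rfl, b1⟩, (e0 u _).2 fun w hw => congrArg φ (b2 w hw)⟩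
      have e2 : C'.small (φ u) ↔ C.small u := by
        have : Nonempty ν := ⟨u⟩
        constructor
        · rintro ⟨v, w, b⟩
          refine ⟨Function.invFun φ v, Function.invFun φ w, fun y hy => ?_⟩
          rcases (e0 u _).1 b y hy with rfl | rfl
          · exact Or.inl (Function.leftInverse_invFun hφ y).symm
          · exact Or.inr (Function.leftInverse_invFun hφ y).symm
        · rintro ⟨v, w, b⟩
          exact ⟨φ v, φ w, (e0 u _).2 fun y hy => (b y hy).imp (congrArg φ) (congrArg φ)⟩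
      simp only [Cir.ok_succ, h1, h2, e0, e1, e2, ih.1]
    · simp only [Cir.val_succ, h1, h2, h3, h4, forall_exists_index, and_imp, Set.mem_preimage]
      have e1 : (∀ (y : ν') (v : ν), φ v = y → C.ch u v → C'.val V h y) ↔
          ∀ v, C.ch u v → C.val (φ ⁻¹' V) h v :=
        ⟨fun a v b => (ih.2 V v).1 (a _ v rfl b), fun a y v b c => b ▸ (ih.2 V v).2 (a v c)⟩
      have e2 : (∃ y, (∃ v, φ v = y ∧ C.ch u v) ∧ C'.val V h y) ↔
          ∃ v, C.ch u v ∧ C.val (φ ⁻¹' V) h v :=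
        ⟨fun ⟨_, ⟨v, b, c⟩, a⟩ => ⟨v, c, (ih.2 V v).1 (b ▸ a)⟩,
          fun ⟨v, c, a⟩ => ⟨_, ⟨v, rfl, c⟩, (ih.2 V v).2 a⟩⟩
      rw [e1, e2]

/-! ### The search tree for hitting sets -/

variable {γ : Type} [Fintype γ] {e : ℕ}

/-- An enumeration of the tuples. -/
noncomputable def rk (Q : Fin e → γ) : ℕ := Fintype.equivFin _ Q

/-- The elements chosen along a path of the search tree. -/
def inH (F : (Fin e → γ) → Prop) : List (Fin e) → γ → Prop
  | [], _ => False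
  | i :: π, v => inH F π v ∨ ∃ Q, Q i = v ∧ (F Q ∧ ∀ j, ¬ inH F π (Q j)) ∧
      ∀ Q', rk Q' < rk Q → ¬ (F Q' ∧ ∀ j, ¬ inH F π (Q' j))

theorem inH_new {F : (Fin e → γ) → Prop} {π : List (Fin e)} {i : Fin e} {v w : γ}
    (h1 : inH F (i :: π) v) (h2 : ¬ inH F π v) (h3 : inH F (i :: π) w) : inH F π w ∨ w = v := by
  obtain ⟨Q, rfl, a1, a2⟩ := h1.resolve_left h2
  refine h3.imp_right fun ⟨Q', b0, b1, b2⟩ => ?_
  have : rk Q = rk Q' := le_antisymm (not_lt.1 fun h => a2 Q' h b1) (not_lt.1 fun h => b2 Q h a1)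
  rw [← b0, (Fintype.equivFin _).injective (Fin.ext this)]

theorem hit_det {F F' : (Fin e → γ) → Prop} {V : Finset γ} {K : ℕ} (hK : V.card ≤ K)
    (h1 : ∀ π : List (Fin e), π.length ≤ K + 1 → ∀ v ∈ V, inH F π v ↔ inH F' π v)
    (h2 : ∀ π : List (Fin e), π.length ≤ K + 1 → (∀ Q, F Q → ∃ j, inH F π (Q j)) →
      ∀ Q, F' Q → ∃ j, inH F' π (Q j))
    (h : ∀ Q, F Q → ∃ j, Q j ∈ V) : ∀ Q, F' Q → ∃ j, Q j ∈ V := by
  have key : ∀ m ≤ K + 1, ∃ π : List (Fin e), π.length ≤ m ∧ (∀ v, inH F' π v → v ∈ V) ∧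
      ((∀ Q, F Q → ∃ j, inH F π (Q j)) ∨ m ≤ (V.filter (inH F π)).card) := by
    intro m hm
    induction m with
    | zero => exact ⟨[], le_rfl, fun _ h => h.elim, Or.inr (Nat.zero_le _)⟩
    | succ m ih =>
      obtain ⟨π, a1, a2, a3⟩ := ih (by omega)
      by_cases a4 : ∀ Q, F Q → ∃ j, inH F π (Q j)
      · exact ⟨π, by omega, a2, Or.inl a4⟩
      have a5 := a3.resolve_left a4
      push Not at a4
      obtain ⟨Q, b1, b2⟩ := exists_minimalFor_of_wellFoundedLT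
        (fun Q => F Q ∧ ∀ j, ¬ inH F π (Q j)) rk a4
      obtain ⟨i, hi⟩ := h Q b1.1
      have c1 : inH F (i :: π) (Q i) := Or.inr ⟨Q, rfl, b1, fun Q' c d => (b2 d c.le).not_gt c⟩
      have c2 : (i :: π).length ≤ K + 1 := by simp; omega
      refine ⟨i :: π, by simpa using a1, fun v hv => ?_, Or.inr ?_⟩
      · rcases inH_new ((h1 _ c2 _ hi).1 c1) (fun h => b1.2 i ((h1 π (by omega) _ hi).2 h)) hv with
          h | rfl
        · exact a2 v h
        · exact hi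
      · refine Nat.succ_le_of_lt (a5.trans_lt (card_lt_card ⟨fun v hv => ?_, fun hs => ?_⟩))
        · exact mem_filter.2 ⟨(mem_filter.1 hv).1, Or.inl (mem_filter.1 hv).2⟩
        · exact b1.2 i (mem_filter.1 (hs (mem_filter.2 ⟨hi, c1⟩))).2
  obtain ⟨π, a1, a2, a3⟩ := key _ le_rfl
  intro Q hQ
  obtain ⟨j, hj⟩ := h2 π a1 (a3.resolve_right fun h => by
    have := card_filter_le V (inH F π)
    omega) Q hQ
  exact ⟨j, a2 _ hj⟩

end Pool.Agent.P.MP_d1c5a4_lc
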