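import Mathlib

/-! The W-hierarchy under reductions computed by circuits of depth `f(k)` and size `f(k) n^c`. -/

namespace Pool.Agent.P.MP_d1c5a4_lc

/-- A Boolean circuit on the nodes `ν`: which nodes are inputs, NOT gates and OR gates (all other
nodes are AND gates), and the wires: `ch u v` says that `v` feeds into the gate `u`. -/
structure Cir (ν : Type) where
  inp : ν → Prop
  neg : ν → Prop
  dis : ν → Prop
  ch : ν → ν → Prop

/-- The gate `u` has fan-in at most two. -/
def Cir.small {ν : Type} (C : Cir ν) (u : ν) : Prop := ∃ v w, ∀ y, C.ch u y → y = v ∨ y = w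

/-- `C.ok h t u`: the circuit below the node `u` has depth at most `h` and weft at most `t`, and
its NOT gates have fan-in one. -/
def Cir.ok {ν : Type} (C : Cir ν) (h : ℕ) : ℕ → ν → Prop :=
  Nat.rec (fun _ u => C.inp u) (fun _ P t u => C.inp u ∨ ((C.neg u → ∃! v, C.ch u v) ∧
    (C.small u → ∀ v, C.ch u v → P t v) ∧
    (¬ C.small u → 1 ≤ t ∧ ∀ v, C.ch u v → P (t - 1) v))) h

/-- The value of the node `u` (of depth at most `h`) when exactly the inputs in `V` are true. -/
def Cir.val {ν : Type} (C : Cir ν) (V : Set ν) (h : ℕ) : ν → Prop :=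
  Nat.rec (fun u => u ∈ V) (fun _ P u => (C.inp u → u ∈ V) ∧
    (¬ C.inp u → (C.neg u → ¬ ∀ v, C.ch u v → P v) ∧
      (¬ C.neg u → (C.dis u → ∃ v, C.ch u v ∧ P v) ∧ (¬ C.dis u → ∀ v, C.ch u v → P v)))) h

/-- The bit of the string `x` at position `⟨a, u⟩` (false beyond the end of `x`). -/
def bit (x : List Bool) (a u : ℕ) : Prop := x.getD (Nat.pair a u) false = true

/-- The circuit coded by a string. Its output node is `0`. -/
def dec (x : List Bool) : Cir ℕ :=
  ⟨fun u => bit x 0 u, fun u => bit x 1 u, fun u => bit x 2 u, fun u v => bit x (u + 3) v⟩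

/-- Weighted satisfiability of circuits of weft at most `t` and depth at most `h`. -/
def WCS (t h : ℕ) : Set (List Bool × ℕ) :=
  {p | (dec p.1).ok h t 0 ∧
    ∃ V : Finset ℕ, V.card = p.2 ∧ (∀ u ∈ V, (dec p.1).inp u) ∧ (dec p.1).val V h 0}

/-- `Lay d F`: `F` is the set of functions computed at the nodes of a circuit of depth at most `d`
with AND and OR gates of unbounded fan-in and NOT gates. -/
def Lay {α : Type} (d : ℕ) : Set ((α → Bool) → Prop) → Prop :=
  Nat.rec (fun F => ∀ f ∈ F, ∃ i, f = fun x => x i = true)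
    (fun _ P F => ∃ G ⊆ F, P G ∧ ∀ f ∈ F, f ∈ G ∨ (∃ g ∈ G, f = fun x => ¬ g x) ∨
      ∃ Q ⊆ G, (f = fun x => ∀ g ∈ Q, g x) ∨ f = fun x => ∃ g ∈ Q, g x) d

/-- `L` reduces to `L'` by a map whose output bits and output parameter are computed, on inputs of
length `n` and parameter `k`, by a circuit of depth `f k` and size `f k * (n + 1) ^ c`. -/
def Red (L L' : Set (List Bool × ℕ)) : Prop :=
  ∃ (R : List Bool × ℕ → List Bool × ℕ) (f : ℕ → ℕ) (c : ℕ), (∀ p, p ∈ L ↔ R p ∈ L') ∧
    (∀ x k, (R (x, k)).2 ≤ f k ∧ (R (x, k)).1.length ≤ f k * (x.length + 1) ^ c) ∧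
    ∀ n k, ∃ F : Set ((Fin n → Bool) → Prop), Lay (f k) F ∧ F.ncard ≤ f k * (n + 1) ^ c ∧
      (∀ j, (fun x => (R (List.ofFn x, k)).1.getD j false = true) ∈ F) ∧
      ∀ j, (fun x => (R (List.ofFn x, k)).2 = j) ∈ F

/-- The class `W[t]` with these reductions in place of fpt-reductions. -/
def WAC (t : ℕ) : Set (Set (List Bool × ℕ)) := {L | ∃ h, Red L (WCS t h)}

end Pool.Agent.P.MP_d1c5a4_lc
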