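import Pool.Agent.P.MP_d1c5a4_lc.Jun

/-! A switching lemma for random restrictions that act on blocks of variables. -/

namespace Pool.Agent.P.MP_d1c5a4_lc

open Finset Classical Filter

/-- A scheme of random restrictions: the variables `V` are grouped into blocks `Bk`, each block
gets a random state, and the starred blocks are controlled by one new variable. -/
structure Sch (V Bk St : Type) where
  β : V → Bk
  star : St → Prop
  rd : St → V → Bool → Bool
  off : ∀ σ v b, ¬ star σ → rd σ v b = rd σ v false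

variable {V Bk St ι : Type} [Fintype Bk] [DecidableEq Bk] [Fintype St] [Nonempty St]

/-- The substitution. -/
def Sch.sb (R : Sch V Bk St) (ω : Bk → St) (y : Bk → Bool) (v : V) : Bool :=
  R.rd (ω (R.β v)) v (y (R.β v))

/-- Every pattern on at most `W` variables has probability at least `δ`. -/
def Sch.Rich (R : Sch V Bk St) (W : ℕ) (δ : ℝ) : Prop :=
  ∀ (D : Finset V) (x : V → Bool), D.card ≤ W →
    δ ≤ pr fun ω : Bk → St => ∀ v ∈ D, ¬ R.star (ω (R.β v)) ∧ R.rd (ω (R.β v)) v false = x v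

theorem pr_many {κ A : Type} [Fintype κ] [DecidableEq κ] [Fintype A] [Nonempty A]
    (p : κ → A → Prop) {q : ℝ} (hq : ∀ i, pr (p i) ≤ q) (H : Finset κ) (r : ℕ) :
    pr (fun ω : κ → A => r ≤ (H.filter fun i => p i (ω i)).card) ≤ (H.card * q) ^ r := by
  rcases H.eq_empty_or_nonempty with rfl | ⟨i0, -⟩
  · rcases r with _ | r
    · simpa using pr_le_one _
    · rw [pr_false (by simp)]
      simp
  have hq0 : 0 ≤ q := (pr_nonneg _).trans (hq i0)
  refine (pr_mono (F := fun ω => ∃ Z ∈ powersetCard r H, ∀ i ∈ Z, p i (ω i)) fun ω h => ?_).trans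
    ((pr_ex _ _ (ε := q ^ r) fun Z hZ => ?_).trans ?_)
  · obtain ⟨Z, h1, h2⟩ := exists_subset_card_eq h
    exact ⟨Z, mem_powersetCard.2 ⟨h1.trans (filter_subset _ _), h2⟩,
      fun i hi => (mem_filter.1 (h1 hi)).2⟩
  · rw [pr_pi_on, ← (mem_powersetCard.1 hZ).2]
    rw [← prod_const]
    exact prod_le_prod (fun i _ => pr_nonneg _) fun i _ => hq i
  · rw [card_powersetCard, mul_pow]
    gcongr
    exact_mod_cast Nat.choose_le_pow _ _

theorem Sch.disj (R : Sch V Bk St) {W : ℕ} {δ : ℝ} (hδ : R.Rich W δ) {g : ι → Fn V}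
    {D : ι → Finset V} (M : Finset ι) (hD : ∀ i ∈ M, (D i).card ≤ W ∧ Dep (g i) (D i) ∧ ∃ x, g i x)
    (hM : (M : Set ι).Pairwise fun i j => Disjoint ((D i).image R.β) ((D j).image R.β)) :
    pr (fun ω : Bk → St => ∀ i ∈ M, ¬ ∀ y, g i (R.sb ω y)) ≤ (1 - δ) ^ M.card := by
  have loc : ∀ i ∈ M, ∀ ω ω' : Bk → St, (∀ B ∈ (D i).image R.β, ω B = ω' B) →
      ((∀ y, g i (R.sb ω y)) ↔ ∀ y, g i (R.sb ω' y)) := fun i hi ω ω' h =>
    forall_congr' fun y => (hD i hi).2.1.iff fun v hv => by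
      rw [Sch.sb, Sch.sb, h _ (mem_image_of_mem _ hv)]
  induction M using Finset.induction_on with
  | empty => simpa using pr_le_one _
  | insert i M hi ih =>
    have h1 := ih (fun j hj => hD j (mem_insert_of_mem hj))
      (hM.mono (coe_subset.2 (subset_insert _ _))) fun j hj => loc j (mem_insert_of_mem hj)
    obtain ⟨h2, h3, x, hx⟩ := hD i (mem_insert_self _ _)
    have h4 : pr (fun ω : Bk → St => ¬ ∀ y, g i (R.sb ω y)) ≤ 1 - δ := by
      rw [pr_not]
      refine sub_le_sub_left ((hδ (D i) x h2).trans (pr_mono fun ω hω y => ?_)) _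
      refine h3 x _ (fun v hv => ?_) hx
      rw [Sch.sb, R.off _ _ _ (hω v hv).1, (hω v hv).2]
    rw [← MP.piece ((D i).image R.β), card_insert_of_notMem hi, pow_succ']
    refine le_trans (pr_mono (F := fun p => (¬ ∀ y, g i (R.sb p.1 y)) ∧
      ∀ j ∈ M, ¬ ∀ y, g j (R.sb p.2 y)) fun p hp => ⟨?_, fun j hj => ?_⟩) ?_
    · exact fun h => hp i (mem_insert_self _ _) ((loc i (mem_insert_self _ _) _ p.1
        fun B hB => piecewise_eq_of_mem _ _ _ hB).2 h)
    · exact fun h => hp j (mem_insert_of_mem hj) ((loc j (mem_insert_of_mem hj) _ p.2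
        fun B hB => piecewise_eq_of_notMem _ _ _ (disjoint_right.1 (hM (mem_insert_self _ _)
          (mem_insert_of_mem hj) (ne_of_mem_of_not_mem hj hi).symm) hB)).2 h)
    · rw [pr_and (fun ω => ¬ ∀ y, g i (R.sb ω y)) fun ω => ∀ j ∈ M, ¬ ∀ y, g j (R.sb ω y)]
      exact mul_le_mul h4 h1 (pr_nonneg _) ((pr_nonneg _).trans h4)

/-- The width of the junta. -/
def sw (r : ℕ) : ℕ → ℕ
  | 0 => 0
  | w + 1 => r + 2 ^ r * sw r w

theorem Sch.fss (R : Sch V Bk St) {W L r : ℕ} {δ q : ℝ} (hδ0 : 0 ≤ δ) (hδ : R.Rich W δ)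
    (hq : pr R.star ≤ q) (w : ℕ) (P : Finset ι) (g : ι → Fn V) (D : ι → Finset V)
    (hD : ∀ i ∈ P, (D i).card ≤ W ∧ Dep (g i) (D i) ∧ ((D i).image R.β).card ≤ w) :
    pr (fun ω : Bk → St => ¬ Jun (sw r w) fun y => ∃ i ∈ P, g i (R.sb ω y)) ≤
      (2 ^ r + 1) ^ w * ((1 - δ) ^ L + (L * W * q) ^ r) := by
  have hδ1 : 0 ≤ 1 - δ := sub_nonneg.2 ((hδ ∅ (fun _ => true) (by simp)).trans (pr_le_one _))
  have hq0 : 0 ≤ q := (pr_nonneg _).trans hq
  induction w generalizing P g D with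
  | zero =>
    rw [pr_false]
    · positivity
    refine fun ω h => h ⟨∅, le_rfl, fun x y _ ⟨i, hi, h1⟩ => ⟨i, hi, (hD i hi).2.1 _ _ ?_ h1⟩⟩
    have := (hD i hi).2.2
    rw [Nat.le_zero, card_eq_zero, image_eq_empty] at this
    simp [this]
  | succ w ih =>
    have hη1 : 0 ≤ (1 - δ) ^ L := by positivity
    have hη2 : 0 ≤ (L * W * q) ^ r := by positivity
    have hc : (1 : ℝ) ≤ (2 ^ r + 1) ^ w := one_le_pow₀ (by linarith [pow_pos (two_pos (α := ℝ)) r])
    have hc2 : (0 : ℝ) < 2 ^ r := by positivity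
    obtain ⟨M, hM, hmax⟩ := exists_max_image ((P.filter fun i => ∃ x, g i x).powerset.filter
      fun M : Finset ι => (M : Set ι).Pairwise
        fun i j => Disjoint ((D i).image R.β) ((D j).image R.β)) card ⟨∅, by simp⟩
    simp only [mem_filter, mem_powerset] at hM hmax
    have hMP : ∀ i ∈ M, i ∈ P ∧ ∃ x, g i x := fun i hi => mem_filter.1 (hM.1 hi)
    rw [pow_succ]
    rcases le_or_gt L M.card with hL | hL
    · have h1 := R.disj hδ M
        (fun i hi => ⟨(hD i (hMP i hi).1).1, (hD i (hMP i hi).1).2.1, (hMP i hi).2⟩) hM.2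
      have h2 : (1 - δ) ^ M.card ≤ (1 - δ) ^ L := pow_le_pow_of_le_one hδ1 (by linarith) hL
      have h3 : (1 : ℝ) ≤ (2 ^ r + 1) ^ w * (2 ^ r + 1) := by nlinarith
      refine le_trans (pr_mono fun ω hω i hi h => hω ((Jun.const _ True).congr fun y =>
        iff_true_intro ⟨i, (hMP i hi).1, h y⟩)) (h1.trans ?_)
      nlinarith
    set H := M.biUnion fun i => (D i).image R.β with hH
    have hHc : (H.card : ℝ) ≤ L * W := by
      exact_mod_cast (card_biUnion_le_card_mul _ _ W fun i hi =>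
        card_image_le.trans (hD i (hMP i hi).1).1).trans (Nat.mul_le_mul_right _ hL.le)
    have hw : ∀ i ∈ P.filter fun i => ∃ x, g i x,
        (((D i).filter fun v => R.β v ∉ H).image R.β).card ≤ w := by
      intro i hi
      have h0 : ((D i).filter fun v => R.β v ∉ H).image R.β = (D i).image R.β \ H := by
        ext B
        simp only [mem_image, mem_filter, Finset.mem_sdiff]
        exact ⟨fun ⟨v, ⟨h1, h2⟩, h3⟩ => ⟨⟨v, h1, h3⟩, h3 ▸ h2⟩,
          fun ⟨⟨v, h1, h3⟩, h2⟩ => ⟨v, ⟨h1, h3 ▸ h2⟩, h3⟩⟩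
      rw [h0]
      by_cases hiM : i ∈ M
      · rw [sdiff_eq_empty_iff_subset.2 (subset_biUnion_of_mem (fun i => (D i).image R.β) hiM)]
        simp
      have h1 : ¬ Disjoint ((D i).image R.β) H := fun h => by
        have h2 := hmax (insert i M) ⟨insert_subset hi hM.1, by
          rw [coe_insert]
          exact hM.2.insert fun j hj _ => by
            have := (disjoint_biUnion_right _ _ _).1 h j hj
            exact ⟨this, this.symm⟩⟩
        rw [card_insert_of_notMem hiM] at h2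
        omega
      have h2 := (hD i (mem_filter.1 hi).1).2.2
      have h3 := card_sdiff_add_card_inter ((D i).image R.β) H
      have h4 := card_pos.2 (not_disjoint_iff_nonempty_inter.1 h1)
      omega
    rw [← MP.piece H]
    refine (pr_cond_le _ (fun ω : Bk → St => r ≤ (H.filter fun B => R.star (ω B)).card)
      (ε := 2 ^ r * ((2 ^ r + 1) ^ w * ((1 - δ) ^ L + (L * W * q) ^ r))) (by positivity)
      fun ω hω => ?_).trans ?_
    · set Z := H.filter fun B => R.star (ω B) with hZ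
      let G : Finset Bk → ι → Fn V := fun A i x =>
        g i fun v => if R.β v ∈ H then R.rd (ω (R.β v)) v (decide (R.β v ∈ A)) else x v
      refine (pr_mono (F := fun ω' => ∃ A ∈ Z.powerset, ¬ Jun (sw r w) fun y =>
        ∃ i ∈ P.filter fun i => ∃ x, g i x, G A i (R.sb ω' y)) fun ω' h => ?_).trans
        ((pr_ex _ _ fun A _ => ih _ (G A) (fun i => (D i).filter fun v => R.β v ∉ H)
          fun i hi => ⟨(card_filter_le _ _).trans (hD i (mem_filter.1 hi).1).1, fun x y hxy =>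
            (hD i (mem_filter.1 hi).1).2.1 _ _ fun v hv => ?_, hw i hi⟩).trans ?_)
      · by_contra hc
        push Not at hc
        choose! E hE1 hE2 using hc
        have key : ∀ y : Bk → Bool, (∃ i ∈ P, g i (R.sb (H.piecewise ω ω') y)) ↔
            ∃ i ∈ P.filter fun i => ∃ x, g i x, G (Z.filter fun B => y B = true) i (R.sb ω' y) := by
          intro y
          have e : R.sb (H.piecewise ω ω') y = fun v => if R.β v ∈ H then R.rd (ω (R.β v)) v
              (decide (R.β v ∈ Z.filter fun B => y B = true)) else R.sb ω' y v := by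
            funext v
            by_cases hv : R.β v ∈ H
            · rw [if_pos hv, Sch.sb, piecewise_eq_of_mem _ _ _ hv]
              by_cases hs : R.star (ω (R.β v))
              · simp [hZ, hv, hs]
              · rw [R.off _ _ _ hs, R.off _ _ (decide _) hs]
            · rw [if_neg hv, Sch.sb, piecewise_eq_of_notMem _ _ _ hv, Sch.sb]
          rw [e]
          exact ⟨fun ⟨i, hi, h⟩ => ⟨i, mem_filter.2 ⟨hi, _, h⟩, h⟩,
            fun ⟨i, hi, h⟩ => ⟨i, (mem_filter.1 hi).1, h⟩⟩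
        refine h ⟨Z ∪ Z.powerset.biUnion E, (card_union_le _ _).trans (add_le_add (by omega)
          ((card_biUnion_le_card_mul _ _ _ hE1).trans (Nat.mul_le_mul_right _ ?_))),
          fun x y hxy => ?_⟩
        · rw [card_powerset]
          exact Nat.pow_le_pow_right two_pos (by omega)
        · have e : (Z.filter fun B => x B = true) = Z.filter fun B => y B = true :=
            filter_congr fun B hB => by rw [hxy B (mem_union_left _ hB)]
          have hA : (Z.filter fun B => y B = true) ∈ Z.powerset :=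
            mem_powerset.2 (filter_subset _ _)
          simp only [key, e]
          exact hE2 _ hA x y fun B hB => hxy B (mem_union_right _ (mem_biUnion.2 ⟨_, hA, hB⟩))
      · by_cases h : R.β v ∈ H
        · simp only [if_pos h]
        · simp only [if_neg h]
          exact hxy v (mem_filter.2 ⟨hv, h⟩)
      · rw [card_powerset]
        gcongr
        exact_mod_cast Nat.pow_le_pow_right two_pos (by omega)
    · have h1 := pr_many (fun (_ : Bk) σ => R.star σ) (fun _ => hq) H r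
      have h2 : (H.card * q) ^ r ≤ (L * W * q) ^ r := by gcongr
      nlinarith [mul_nonneg (sub_nonneg.2 hc) (add_nonneg hη1 hη2)]

theorem ev_geom {ρ : ℝ} (h0 : 0 ≤ ρ) (h1 : ρ < 1) (K : ℝ) (C : ℕ) :
    ∀ᶠ L : ℕ in atTop, K * (L : ℝ) ^ C * ρ ^ L ≤ 1 := by
  have := (tendsto_pow_const_mul_const_pow_of_abs_lt_one C
    (show |ρ| < 1 by rwa [abs_of_nonneg h0])).const_mul K
  rw [mul_zero] at this
  filter_upwards [this.eventually (ge_mem_nhds one_pos)] with L hL
  rwa [mul_assoc]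

theorem ev_ge (K : ℝ) : ∀ᶠ L : ℕ in atTop, K ≤ L := tendsto_natCast_atTop_atTop.eventually_ge_atTop K

/-- The asymptotic form of the switching lemma. -/
theorem fss_ev (W C : ℕ) {δ : ℝ} (h0 : 0 < δ) (h1 : δ ≤ 1) : ∃ s, ∀ᶠ L : ℕ in atTop,
    ∀ (V Bk St : Type) [Fintype Bk] [DecidableEq Bk] [Fintype St] [Nonempty St]
      (R : Sch V Bk St), R.Rich W δ → pr R.star ≤ 1 / (L : ℝ) ^ 2 → ∀ P : Finset (Fn V),
      (∀ g ∈ P, Jun W g) →
      pr (fun ω : Bk → St => ¬ Jun s fun y => ∃ g ∈ P, ¬ g (R.sb ω y)) ≤ 1 / (L : ℝ) ^ C := by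
  refine ⟨sw (C + 1) W, ?_⟩
  filter_upwards [ev_geom (ρ := 1 - δ) (by linarith) (by linarith) (2 * (2 ^ (C + 1) + 1) ^ W) C,
    ev_ge (2 * (2 ^ (C + 1) + 1) ^ W * W ^ (C + 1)), ev_ge 1]
    with L a1 a2 a3 V Bk St _ _ _ _ R hR hq P hP
  choose! D hD1 hD2 using hP
  refine (R.fss (L := L) (r := C + 1) h0.le hR hq W P (fun g x => ¬ g x) D fun g hg => ⟨hD1 g hg,
    fun _ _ h h1 h2 => h1 (((hD2 g hg).iff h).2 h2), card_image_le.trans (hD1 g hg)⟩).trans ?_
  have e : (L * W * (1 / (L : ℝ) ^ 2)) ^ (C + 1) = W ^ (C + 1) / (L ^ C * L) := by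
    rw [← pow_succ, ← div_pow]
    congr 1
    field_simp
  rw [e, le_div_iff₀ (by positivity)]
  have e2 : (2 ^ (C + 1) + 1 : ℝ) ^ W * (W ^ (C + 1) / (L ^ C * L)) * L ^ C =
      (2 ^ (C + 1) + 1) ^ W * W ^ (C + 1) / L := by field_simp
  have a4 : (2 ^ (C + 1) + 1 : ℝ) ^ W * W ^ (C + 1) / L ≤ 1 / 2 := by
    rw [div_le_iff₀ (by linarith)]
    linarith
  rw [mul_add, add_mul, e2]
  linarith

/-- One round of restrictions removes one layer of gates. -/
theorem red_ev (j W C C' : ℕ) {δ : ℝ} (h0 : 0 < δ) (h1 : δ ≤ 1) : ∃ s, ∀ᶠ L : ℕ in atTop,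
    ∀ (V Bk St : Type) [Fintype Bk] [DecidableEq Bk] [Fintype St] [Nonempty St]
      (R : Sch V Bk St), R.Rich W δ → pr R.star ≤ 1 / (L : ℝ) ^ 2 → ∀ f : Fn V,
      NN W (L ^ C) (j + 1) f →
      pr (fun ω : Bk → St => ¬ NN s (L ^ C) j fun y => f (R.sb ω y)) ≤ 1 / (L : ℝ) ^ C' := by
  induction j generalizing C' with
  | zero =>
    obtain ⟨s, hs⟩ := fss_ev W C' h0 h1
    refine ⟨s, ?_⟩
    filter_upwards [hs] with L hL V Bk St _ _ _ _ R hR hq f ⟨P, _, h2, h3⟩
    have h4 := hL V Bk St R hR hq P h2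
    refine le_trans (pr_mono ?_) h4
    refine fun ω hω h => hω (Jun.congr h fun y => ?_)
    simp only [h3, not_forall, exists_prop]
  | succ j ih =>
    obtain ⟨s, hs⟩ := ih (C' + C)
    refine ⟨s, ?_⟩
    filter_upwards [hs, ev_ge 1] with L hL a1 V Bk St _ _ _ _ R hR hq f ⟨P, h1, h2, h3⟩
    refine (pr_mono (F := fun ω => ∃ g ∈ P, ¬ NN s (L ^ C) j fun y => g (R.sb ω y))
      fun ω hω => ?_).trans ((pr_ex _ _ fun g hg => hL V Bk St R hR hq g (h2 g hg)).trans ?_)
    · by_contra hc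
      push Not at hc
      exact hω ((NN.nand P h1 hc).congr fun y => h3 _)
    · have : (P.card : ℝ) ≤ L ^ C := by exact_mod_cast h1
      rw [pow_add, mul_one_div, div_le_div_iff₀ (by positivity) (by positivity), one_mul, mul_comm]
      gcongr

end Pool.Agent.P.MP_d1c5a4_lc
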