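import Pool.Agent.P.MP_d1c5a4_lc.Pr

/-! Juntas and bounded depth formulas over juntas. -/

namespace Pool.Agent.P.MP_d1c5a4_lc

open Finset Classical

/-- Boolean functions. -/
abbrev Fn (α : Type) : Type := (α → Bool) → Prop

variable {α β ι : Type}

/-- `f` depends only on the variables in `D`. -/
def Dep (f : Fn α) (D : Finset α) : Prop := ∀ x y, (∀ i ∈ D, x i = y i) → f x → f y

/-- `f` depends on at most `s` variables. -/
def Jun (s : ℕ) (f : Fn α) : Prop := ∃ D : Finset α, D.card ≤ s ∧ Dep f D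

theorem Dep.iff {f : Fn α} {D : Finset α} (h : Dep f D) {x y : α → Bool}
    (hxy : ∀ i ∈ D, x i = y i) : f x ↔ f y :=
  ⟨h x y hxy, h y x fun i hi => (hxy i hi).symm⟩

theorem Jun.mono {s s' : ℕ} {f : Fn α} (h : Jun s f) (hs : s ≤ s') : Jun s' f :=
  let ⟨D, h1, h2⟩ := h
  ⟨D, h1.trans hs, h2⟩

theorem Jun.congr {s : ℕ} {f g : Fn α} (h : Jun s f) (hs : ∀ x, g x ↔ f x) : Jun s g := by
  rwa [show g = f from funext fun x => propext (hs x)]

theorem Jun.const (s : ℕ) (p : Prop) : Jun s (fun _ : α → Bool => p) :=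
  ⟨∅, by simp, fun _ _ _ h => h⟩

theorem Jun.of_det {s : ℕ} (T : Finset ι) {g : ι → Fn α} (hg : ∀ i ∈ T, Jun s (g i)) {f : Fn α}
    (h : ∀ x y, (∀ i ∈ T, g i x ↔ g i y) → f x → f y) : Jun (T.card * s) f := by
  choose! D h1 h2 using hg
  refine ⟨T.biUnion D, card_biUnion_le_card_mul _ _ _ h1, fun x y hxy => h x y fun i hi => ?_⟩
  exact (h2 i hi).iff fun j hj => hxy j (mem_biUnion.2 ⟨i, hi, hj⟩)

theorem Jun.not {s : ℕ} {f : Fn α} (h : Jun s f) : Jun s (fun x => ¬ f x) :=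
  let ⟨D, h1, h2⟩ := h
  ⟨D, h1, fun _ _ hxy h3 h4 => h3 ((h2.iff hxy).2 h4)⟩

theorem Jun.two {s s' : ℕ} {f g k : Fn α} (hf : Jun s f) (hg : Jun s' g)
    (h : ∀ x y, (f x ↔ f y) → (g x ↔ g y) → k x → k y) : Jun (s + s') k := by
  obtain ⟨D, h1, h2⟩ := hf
  obtain ⟨D', h1', h2'⟩ := hg
  exact ⟨D ∪ D', (card_union_le _ _).trans (add_le_add h1 h1'), fun x y hxy =>
    h x y (h2.iff fun i hi => hxy i (mem_union_left _ hi))
      (h2'.iff fun i hi => hxy i (mem_union_right _ hi))⟩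

theorem Jun.var (i : α) : Jun 1 (fun x : α → Bool => x i = true) :=
  ⟨{i}, by simp, fun _ _ h h1 => (h i (mem_singleton_self i)).symm.trans h1⟩

theorem Jun.comp {s c : ℕ} {f : Fn α} (h : Jun s f) {φ : (β → Bool) → α → Bool}
    (hφ : ∀ i, Jun c fun y => φ y i = true) : Jun (s * c) fun y => f (φ y) := by
  obtain ⟨D, h1, h2⟩ := h
  refine (Jun.of_det D (fun i _ => hφ i) fun x y hxy => h2 _ _ fun i hi => ?_).mono
    (Nat.mul_le_mul_right _ h1)
  exact Bool.eq_iff_iff.2 (hxy i hi)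

/-- Trees of depth `j` of NAND gates of fan-in at most `S` over juntas of width `W`. -/
def NN (W S : ℕ) : ℕ → Fn α → Prop
  | 0, f => Jun W f
  | j + 1, f => ∃ P : Finset (Fn α), P.card ≤ S ∧ (∀ g ∈ P, NN W S j g) ∧
      ∀ x, f x ↔ ¬ ∀ g ∈ P, g x

variable {W S j : ℕ} {f g : Fn α}

theorem NN.congr (h : NN W S j f) (hs : ∀ x, g x ↔ f x) : NN W S j g := by
  rwa [show g = f from funext fun x => propext (hs x)]

theorem NN.mono {W' S' : ℕ} (h : NN W S j f) (hW : W ≤ W') (hS : S ≤ S') : NN W' S' j f := by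
  induction j generalizing f with
  | zero => exact Jun.mono h hW
  | succ j ih =>
    obtain ⟨P, h1, h2, h3⟩ := h
    exact ⟨P, h1.trans hS, fun g hg => ih (h2 g hg), h3⟩

theorem NN.nand (T : Finset ι) (hT : T.card ≤ S) {g : ι → Fn α} (h : ∀ i ∈ T, NN W S j (g i)) :
    NN W S (j + 1) fun x => ¬ ∀ i ∈ T, g i x :=
  ⟨T.image g, card_image_le.trans hT, by simpa using h, fun x => by simp⟩

theorem NN.neg (hS : 1 ≤ S) (h : NN W S j f) : NN W S (j + 1) fun x => ¬ f x :=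
  ⟨{f}, by simpa, by simpa, fun x => by simp⟩

theorem NN.up (hS : 1 ≤ S) (h : NN W S j f) : NN W S (j + 1) f := by
  induction j generalizing f with
  | zero => exact (NN.neg (j := 0) hS (Jun.not h)).congr fun x => not_not.symm
  | succ j ih =>
    obtain ⟨P, h1, h2, h3⟩ := h
    exact ⟨P, h1, fun g hg => ih (h2 g hg), h3⟩

theorem NN.le (hS : 1 ≤ S) (h : NN W S j f) {j' : ℕ} (hj : j ≤ j') : NN W S j' f := by
  induction hj with
  | refl => exact h
  | step _ ih => exact ih.up hS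

theorem NN.of_jun (hS : 1 ≤ S) (h : Jun W f) : NN W S j f := NN.le (j := 0) hS h j.zero_le

theorem NN.ex (T : Finset ι) {m : ℕ} (hm : 1 ≤ m) (hT : T.card ≤ m) {g : ι → Fn α}
    (h : ∀ i ∈ T, NN W S (j + 1) (g i)) : NN W (m * S) (j + 1) fun x => ∃ i ∈ T, g i x := by
  choose! P h1 h2 h3 using h
  refine ⟨T.biUnion P, (card_biUnion_le_card_mul _ _ _ h1).trans (Nat.mul_le_mul_right _ hT),
    fun g hg => ?_, fun x => ?_⟩
  · obtain ⟨i, hi, hg⟩ := mem_biUnion.1 hg
    exact (h2 i hi g hg).mono le_rfl (Nat.le_mul_of_pos_left _ hm)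
  · simp only [mem_biUnion, forall_exists_index, and_imp, not_forall]
    constructor
    · rintro ⟨i, hi, h4⟩
      obtain ⟨g, h5⟩ := not_forall.1 ((h3 i hi x).1 h4)
      obtain ⟨h5, h6⟩ := Classical.not_imp.1 h5
      exact ⟨g, i, hi, h5, h6⟩
    · rintro ⟨g, i, hi, h5, h6⟩
      exact ⟨i, hi, (h3 i hi x).2 fun h => h6 (h g h5)⟩

theorem NN.and_or (hS : 2 ≤ S) (hf : NN W S j f) (hg : NN W S j g) :
    NN (W + W) (S * S) j (fun x => f x ∧ g x) ∧ NN (W + W) (S * S) j fun x => f x ∨ g x := by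
  induction j generalizing f g with
  | zero => exact ⟨Jun.two hf hg (by tauto), Jun.two hf hg (by tauto)⟩
  | succ j ih =>
    obtain ⟨P, h1, h2, h3⟩ := hf
    obtain ⟨P', h1', h2', h3'⟩ := hg
    constructor
    · refine (NN.nand (P ×ˢ P') (g := fun p x => p.1 x ∨ p.2 x) ?_ fun p hp => ?_).congr fun x => ?_
      · rw [card_product]
        exact Nat.mul_le_mul h1 h1'
      · exact (ih (h2 _ (mem_product.1 hp).1) (h2' _ (mem_product.1 hp).2)).2
      · simp only [h3, h3', not_forall, mem_product, Prod.forall, not_or, and_imp]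
        exact ⟨fun ⟨⟨a, ha, h⟩, b, hb, h'⟩ => ⟨a, b, ha, hb, h, h'⟩,
          fun ⟨a, b, ha, hb, h, h'⟩ => ⟨⟨a, ha, h⟩, b, hb, h'⟩⟩
    · refine ⟨P ∪ P', (card_union_le _ _).trans (by nlinarith), fun g hg => ?_, fun x => ?_⟩
      · exact ((mem_union.1 hg).elim (h2 g) (h2' g)).mono (by omega) (by nlinarith)
      · simp only [h3, h3', mem_union, or_imp, forall_and, not_and_or]

theorem NN.comp {c : ℕ} (h : NN W S j f) {φ : (β → Bool) → α → Bool}
    (hφ : ∀ i, Jun c fun y => φ y i = true) : NN (W * c) S j fun y => f (φ y) := by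
  induction j generalizing f with
  | zero => exact Jun.comp h hφ
  | succ j ih =>
    obtain ⟨P, h1, h2, h3⟩ := h
    exact (NN.nand P h1 (g := fun g y => g (φ y)) fun g hg => ih (h2 g hg)).congr fun y => h3 _

end Pool.Agent.P.MP_d1c5a4_lc
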