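import Pool.Agent.P.MP_d1c5a4_lc.Src

/-! The separation of the levels. -/

namespace Pool.Agent.P.MP_d1c5a4_lc

open Finset Classical Filter

theorem col_small {A Col : Type} [Fintype A] [Nonempty A] [Fintype Col] [DecidableEq Col]
    {n m L : ℕ} (hn : n = m * L) {ι : Fin n → Col} (hι : Function.Injective ι) (p : A → Prop)
    (hp : 1 / 2 ≤ m * pr p) : pr (fun σ : Col → A => ∀ r, ¬ p (σ (ι r))) ≤ (2 / 3) ^ L := by
  rw [pr_all_inj hι fun a => ¬ p a, pr_not, Fintype.card_fin, hn]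
  exact pow_small (pr_nonneg _) (pr_le_one _) hp L

theorem good (k D j a : ℕ) (ha : 9 * D + 1 ≤ a) : ∀ᶠ L : ℕ in atTop,
    ∀ (Gr : Type) [Fintype Gr] [DecidableEq (Option Gr × Fin (L ^ (a + 1)))],
    Fintype.card Gr = L ^ j →
    pr (fun p : (Fin (k + 1) → Fin (L ^ (a + 1))) × (Option Gr × Fin (L ^ (a + 1)) →
        CS (k + 1) (L ^ (a + 1)) (L ^ 2) (3 * D)) =>
      ¬ ((∀ V : Finset (Fin (k + 1) × Fin (L ^ (a + 1))), V.card = k + 1 →
        (∀ r, ∃ x ∈ V, mat (mp pat p.2) p.1 univ (fun _ => false) (x, none, r) = true) →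
          V = univ.image fun i => (i, p.1 i)) ∧
      ∀ g, ∃ r, (p.2 (some g, r)).2.1 = (fun _ => true) ∧ (p.2 (some g, r)).2.2.st = true)) ≤
      1 / 2 := by
  filter_upwards [ev_geom (ρ := 2 / 3) (by norm_num) (by norm_num) (4 * (k + 1) ^ (k + 1))
    ((a + 1) * (k + 1)), ev_geom (ρ := 2 / 3) (by norm_num) (by norm_num) 4 j,
    ev_ge (2 ^ (k + 1) * 2 ^ (k + 1)), ev_ge 2, eventually_ge_atTop 1] with L h1 h2 h3 h4 h5
    Gr _ _ hG
  have : NeZero (L ^ (a + 1)) := ⟨(Nat.pow_pos h5).ne'⟩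
  have h6 : (L : ℝ) ^ (9 * D) * L ≤ (L ^ a : ℕ) := by
    rw [← pow_succ, Nat.cast_pow]
    exact pow_le_pow_right₀ (by linarith) ha
  have h7 : (1 : ℝ) ≤ L ^ (9 * D) := one_le_pow₀ (by linarith)
  have h8 : (1 : ℝ) ≤ 2 ^ (k + 1) := one_le_pow₀ one_le_two
  refine pr_le_of_all _ (by norm_num) fun x => ?_
  refine (pr_le_or (F := fun σ => ∃ V ∈ (powersetCard (k + 1) univ).erase
      (univ.image fun i => (i, x i)), ∀ r, ∃ y ∈ V,
        mat (mp pat σ) x univ (fun _ => false) (y, none, r) = true)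
    (G := fun σ => ∃ g ∈ univ, ∀ r, ¬ ((σ (some g, r)).2.1 = (fun _ => true) ∧
      (σ (some g, r)).2.2.st = true)) fun σ h => ?_).trans
    ((add_le_add (pr_ex _ _ (ε := (2 / 3) ^ L) fun V hV => ?_)
      (pr_ex _ _ (ε := (2 / 3) ^ L) fun g _ => ?_)).trans ?_)
  · rcases not_and_or.1 h with h | h
    · push Not at h
      obtain ⟨V, a1, a2, a3⟩ := h
      exact Or.inl ⟨V, by simp [a1, a3], a2⟩
    · exact Or.inr (by simpa using h)
  · obtain ⟨a1, a2⟩ := mem_erase.1 hV
    have a3 := (mem_powersetCard.1 a2).2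
    obtain ⟨i₀, hi⟩ : ∃ i, (i, x i) ∉ V := by
      by_contra hc
      push Not at hc
      exact a1 (eq_of_subset_of_card_le (image_subset_iff.2 fun i _ => hc i) (by
        rw [card_image_of_injective _ (inj_row x), a3]
        simp)).symm
    refine le_trans (pr_mono fun σ h r h' => ?_) (col_small (pow_succ L a)
      (ι := fun r => (none, r)) (fun _ _ h => (Prod.ext_iff.1 h).2)
      (fun c : CS (k + 1) (L ^ (a + 1)) (L ^ 2) (3 * D) =>
        (∀ y ∈ V, c.1 y = false) ∧ c.2.1 = fun i => decide (i = i₀)) ?_)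
    · obtain ⟨⟨i, b⟩, b1, b2⟩ := h r
      simp only [mat, mp, h'.2, mem_univ, true_and, Bool.and_false, Bool.xor_false] at b2
      split_ifs at b2 with hb
      · rw [pat, if_pos (by simp [par])] at b2
        exact hi (by simpa [← hb, ← of_decide_eq_true b2] using b1)
      · simp [h'.1 _ b1] at b2
    · rw [pr_and (fun u : Fin (k + 1) × Fin (L ^ (a + 1)) → Bool => ∀ y ∈ V, u y = false)
        fun c : (Fin (k + 1) → Bool) × St (L ^ 2) (3 * D) => c.1 = fun i => decide (i = i₀),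
        pr_bits V fun _ => false, pr_fst fun b : Fin (k + 1) → Bool => b = fun i => decide (i = i₀),
        pr_eq, a3]
      simp only [Fintype.card_pi, Fintype.card_bool, prod_const, card_univ, Fintype.card_fin,
        Nat.cast_pow, Nat.cast_ofNat, one_div_pow, mul_one_div] at h6 ⊢
      rw [div_div, mul_one_div, le_div_iff₀ (by positivity)]
      nlinarith
  · refine col_small (pow_succ L a) (ι := fun r => (some g, r))
      (fun _ _ h => (Prod.ext_iff.1 h).2) (fun c : CS (k + 1) (L ^ (a + 1)) (L ^ 2) (3 * D) =>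
        c.2.1 = (fun _ => true) ∧ c.2.2.st = true) ?_
    rw [pr_snd fun c : (Fin (k + 1) → Bool) × St (L ^ 2) (3 * D) =>
        c.1 = (fun _ => true) ∧ c.2.st = true,
      pr_and (fun b : Fin (k + 1) → Bool => b = fun _ => true)
        fun σ : St (L ^ 2) (3 * D) => σ.st = true, St.pr_st, pr_eq]
    simp only [Fintype.card_pi, Fintype.card_bool, prod_const, card_univ, Fintype.card_fin,
      Nat.cast_pow, Nat.cast_ofNat, one_div_pow, mul_one_div] at h6 ⊢
    rw [div_div, mul_one_div, le_div_iff₀ (by positivity)]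
    have : ((L : ℝ) ^ 2 + 1) ^ (3 * D) ≤ L ^ (9 * D) := by
      rw [show 9 * D = 3 * (3 * D) by ring, pow_mul _ 3 (3 * D)]
      exact pow_le_pow_left₀ (by positivity) (by nlinarith [sq_nonneg (L : ℝ)]) _
    have : (2 : ℝ) ^ (k + 1) * (L ^ 2 + 1) ^ (3 * D) ≤ L * L ^ (9 * D) := by
      gcongr
      nlinarith
    nlinarith
  · have b1 : (((powersetCard (k + 1) univ).erase (univ.image fun i => (i, x i))).card : ℝ) ≤
        (k + 1) ^ (k + 1) * L ^ ((a + 1) * (k + 1)) := by
      have := (card_erase_le (s := powersetCard (k + 1) univ)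
        (a := univ.image fun i => (i, x i))).trans ((card_powersetCard _ _).trans_le
          (Nat.choose_le_pow _ _))
      rw [card_univ, Fintype.card_prod, Fintype.card_fin, Fintype.card_fin, mul_pow,
        ← pow_mul] at this
      exact_mod_cast this
    have := mul_le_mul_of_nonneg_right b1 (show (0 : ℝ) ≤ (2 / 3) ^ L by positivity)
    rw [card_univ, hG, Nat.cast_pow]
    linarith

theorem ex_code {ν : Type} [Fintype ν] (r : ν) :
    ∃ φ : ν → ℕ, Function.Injective φ ∧ (∀ u, φ u < Fintype.card ν) ∧ φ r = 0 :=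
  ⟨fun u => Equiv.swap (Fintype.equivFin ν r) ⟨0, Fintype.card_pos_iff.2 ⟨r⟩⟩
    (Fintype.equivFin ν u), Fin.val_injective.comp ((Equiv.injective _).comp (Equiv.injective _)),
    fun _ => Fin.is_lt _, by simp⟩

theorem card_nd {j k L a : ℕ} (ha : 4 * j + 2 ≤ a) (hL : 2 * (j + 1) + k + 37 ≤ L) :
    (Fintype.card (Nd j (Ix L) (Fin L) (Fin (L ^ a)) (Fin k × Fin (L ^ a))) + 3) ^ 2 + 1 ≤
      (L ^ a) ^ 5 := by
  have h1 : (L * L ^ 3) ^ j * L * L ≤ L ^ a :=
    le_trans (le_of_eq (by ring)) (Nat.pow_le_pow_right (by omega) ha)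
  have h2 : L ≤ L ^ a := Nat.le_self_pow (by omega) _
  have h3 : 1 ≤ (L * L ^ 3) ^ j := Nat.one_le_pow _ _ (by have : 0 < L := by omega
                                                          positivity)
  simp only [Fintype.card_sum, Fintype.card_prod, Fintype.card_option, Fintype.card_pi,
    Fintype.card_fin, prod_const, card_univ, Fintype.card_bool]
  generalize (L * L ^ 3) ^ j = M at *
  generalize L ^ a = n at *
  have h4 : M * L + 1 ≤ n := by nlinarith
  have h5 : (j + 1) * (M * 2) ≤ n := by nlinarith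
  have h6 : k * n + ((M * L + 1) * n + (j + 1) * (M * 2)) + 3 ≤ 6 * n ^ 2 := by
    have := Nat.mul_le_mul_right n h4
    have := Nat.mul_le_mul_right n (show k ≤ n by omega)
    nlinarith
  have h7 := Nat.pow_le_pow_left h6 2
  have h8 : 37 * n ^ 4 ≤ n * n ^ 4 := Nat.mul_le_mul_right _ (by omega)
  have h9 : 1 ≤ n ^ 4 := Nat.one_le_pow _ _ (by omega)
  nlinarith

theorem hard (j H : ℕ) : ¬ Red (WCS (j + 2) (2 * j + 2)) (WCS (j + 1) H) := by
  intro h
  obtain ⟨c, h⟩ := sim h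
  obtain ⟨D, A, h⟩ := h (2 * (2 * (5 * c + 1) + 1) + 1)
  obtain ⟨a, ha⟩ : ∃ a, a = 9 * D * (2 * (2 * (5 * c + 1) + 1) + 1) + 9 * D + 4 * j + 1 := ⟨_, rfl⟩
  obtain ⟨s, hs⟩ := jt (5 * c + 1) D (a + 1) (by omega)
  obtain ⟨W, b, h⟩ := h s
  obtain ⟨L, h1, h2, h3, h4⟩ := (hs.and ((good (2 * (2 * (5 * c + 1) + 1)) D (4 * j + 1) a (by omega)).and
    ((sipser j (W * 1) ((a + 1) * (5 * c + 1) * b)).and
      (eventually_ge_atTop (2 * (j + 1) + (2 * (2 * (5 * c + 1) + 1) + 1) + 37 + A))))).exists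
  have hL : 0 < L := by omega
  have : NeZero (L ^ (a + 1)) := ⟨(Nat.pow_pos hL).ne'⟩
  let f₀ : Fin j → Ix L := fun _ => (⟨0, hL⟩, ⟨0, by positivity⟩)
  obtain ⟨φ, hφ, hN, hr⟩ := ex_code (ν := Nd j (Ix L) (Fin L) (Fin (L ^ (a + 1)))
    (Fin (2 * (2 * (5 * c + 1) + 1) + 1) × Fin (L ^ (a + 1)))) (.inr (.inr (Fin.last j, f₀, true)))
  have h5 := card_nd (j := j) (k := 2 * (2 * (5 * c + 1) + 1) + 1) (L := L) (a := a + 1)
    (by omega) (by omega)
  generalize Fintype.card (Nd j (Ix L) (Fin L) (Fin (L ^ (a + 1)))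
    (Fin (2 * (2 * (5 * c + 1) + 1) + 1) × Fin (L ^ (a + 1)))) = N at hN h5
  have : DecidableEq (Cl j (Ix L) (Fin L) (Fin (L ^ (a + 1)))) := Classical.decEq _
  replace h2 := h2 ((Fin j → Ix L) × Fin L) (by
    simp only [card_univ, Fintype.card_prod, Fintype.card_pi, Fintype.card_fin, prod_const]
    ring)
  obtain ⟨F, f1, f2, f3⟩ := h ((N + 3) ^ 2)
  have h6 : A * ((N + 3) ^ 2 + 1) ^ c + 2 ≤ (L ^ (a + 1)) ^ (5 * c + 1) := by
    have b1 := Nat.pow_le_pow_left h5 c
    have b2 : L ≤ L ^ (a + 1) := Nat.le_self_pow (by omega) _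
    rw [← pow_mul] at b1
    rw [pow_succ' _ (5 * c)]
    have b3 := Nat.one_le_pow (5 * c) _ (hL.trans_le b2)
    have b4 := Nat.mul_le_mul_right ((L ^ (a + 1)) ^ (5 * c)) (show A + 2 ≤ L ^ (a + 1) by omega)
    have b5 := Nat.mul_le_mul_left A b1
    nlinarith
  have h7 := h1 _ _ (fun y (p : Fin ((N + 3) ^ 2)) => decide (encB (src y) φ p)) (fun p =>
    (enc_jun (C := src) hφ (fun u => Jun.const 1 _) (fun u => Jun.const 1 _) (fun u => Jun.const 1 _)
      src_jun p).congr fun y => decide_eq_true_iff) F f1 (by omega)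
  obtain ⟨⟨x, σ⟩, hp⟩ := exists_of_pr_lt ((pr_or _ _).trans_lt ((add_le_add h7 h2).trans_lt
    (by norm_num)))
  simp only [not_or, not_not] at hp
  obtain ⟨p1, p2, p3⟩ := hp
  choose r r1 r2 using p3
  let ζ : ((Fin j → Ix L) × Fin L → Bool) → Cl j (Ix L) (Fin L) (Fin (L ^ (a + 1))) → Bool :=
    fun y c => c.1.elim false fun g => decide (c.2 = r g) && !y g
  have h8 := (f3 _ _ _ h6 p1).comp (φ := ζ) (c := 1) (by
    rintro ⟨_ | g, r'⟩
    · exact Jun.const 1 (false = true)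
    · exact ⟨{g}, by simp, fun y y' h => by simp [ζ, h g]⟩)
  rw [← pow_mul, ← pow_mul, ← mul_assoc] at h8
  refine h3 f₀ (h8.congr fun y => ?_)
  rw [enc_wcs _ hφ hN hr, src_iff]
  have e1 : ∀ c, (∃ v ∈ univ.image fun i => (i, x i), mat (mp pat σ) x univ (ζ y) (v, c) = true) ↔
      ∃ i, xor (pat (σ c).2.1 i) ((σ c).2.2.st && ζ y c) = true := fun c => by simp [mat, mp]
  have e2 : (fun f => ∀ a r, ∃ v ∈ univ.image fun i => (i, x i),
      mat (mp pat σ) x univ (ζ y) (v, some (f, a), r) = true) = fun f => ∀ a, y (f, a) = true := by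
    refine funext fun f => propext (forall_congr' fun a => ⟨fun h => ?_, fun h r' => ?_⟩)
    · simpa [r1, r2, ζ, pat_true] using (e1 _).1 (h (r (f, a)))
    · exact (e1 _).2 (by simpa [ζ, h] using pat_ne _)
  refine ⟨fun h => ⟨_, ?_, fun r' => ?_, e2 ▸ h⟩, fun ⟨V, v1, v2, v3⟩ => ?_⟩
  · rw [card_image_of_injective _ (inj_row x)]
    simp
  · exact (e1 _).2 (by simpa [ζ] using pat_ne _)
  · rwa [p2 V v1 v2, e2] at v3

theorem red_refl (L : Set (List Bool × ℕ)) : Red L L := by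
  refine ⟨id, fun k => k + 2, 1, fun _ => Iff.rfl, fun x k => ⟨by simp, by
    simp only [id, pow_one]
    nlinarith⟩, fun n k => ⟨Set.range (fun i x => x i = true) ∪ {fun _ => True, fun _ => False},
      Lay.mono (d := 1) (Lay.succ.2 ⟨_, Set.subset_union_left, fun f ⟨i, hi⟩ => ⟨i, hi.symm⟩,
        fun f hf => hf.imp_right fun h => Or.inr ⟨∅, Set.empty_subset _, by simpa using h⟩⟩)
        (by simp), (Set.ncard_union_le _ _).trans ?_, fun i => ?_, fun i => Or.inr ?_⟩⟩
  · have h1 : (Set.range fun (i : Fin n) (x : Fin n → Bool) => x i = true).ncard ≤ n := by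
      rw [← Set.image_univ]
      exact (Set.ncard_image_le Set.finite_univ).trans (by simp)
    have h2 := Set.ncard_insert_le (fun _ : Fin n → Bool => True) {fun _ => False}
    rw [Set.ncard_singleton] at h2
    nlinarith
  · by_cases hi : i < n
    · exact Or.inl ⟨⟨i, hi⟩, funext fun x => by simp [hi]⟩
    · exact Or.inr (Or.inr (funext fun x => by simp [not_lt.1 hi]))
  · by_cases h : k = i <;> simp [h]

theorem ok_res {x : List Bool} {N : ℕ} (hx : x.length ≤ N) (t h : ℕ) :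
    (dec x).ok h t 0 ↔ (res x N).ok h t 0 :=
  ((res x N).transfer (dec x) Fin.val_injective (fun _ => Iff.rfl) (fun _ => Iff.rfl)
    (fun _ => Iff.rfl) (fun _ y => ⟨fun h => ⟨⟨y, by have := bit_lt h; omega⟩, rfl, h⟩,
      fun ⟨_, a1, a2⟩ => a1 ▸ a2⟩) h).1 t 0

theorem red_up {L : Set (List Bool × ℕ)} {t H : ℕ} (h : Red L (WCS t H)) :
    Red L (WCS (t + 1) H) := by
  obtain ⟨R, f, c, h1, h2, h3⟩ := h
  have hl : ∀ n k (x : Fin n → Bool), (R (List.ofFn x, k)).1.length ≤ f k * (n + 1) ^ c :=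
    fun n k x => by simpa using (h2 (List.ofFn x) k).2
  let R' : List Bool × ℕ → List Bool × ℕ := fun p =>
    if (dec (R p).1).ok H t 0 then R p else ([], 1)
  have h4 : ∀ k, PS (fun n => ((n + 1) ^ c) ^ (2 * 0 + 3)) fun n => {g : Fn (Fin n) | ∃ j,
      (g = fun x => (R' (List.ofFn x, k)).1.getD j false = true) ∨
        g = fun x => (R' (List.ofFn x, k)).2 = j} := fun k => by
    obtain ⟨hU, hB⟩ := red_ps h3 k 0
    have a1 := ((pf_ok (C := fun n x => res (R (List.ofFn x, k)).1 (f k * (n + 1) ^ c)) hU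
      (hB.mono fun n g ⟨u, v, hg⟩ => by
        rcases hg with rfl | rfl | rfl | rfl <;> exact ⟨_, Or.inl rfl⟩) H t).re
      (U := UI (fun n => Fin (f k * (n + 1) ^ c + 1)) 0) fun _ i => (0, i.2)).congr
      fun n _ x => ok_res (hl n k x) t H
    have a2 : PF _ fun n (i : UI (fun n => Fin (f k * (n + 1) ^ c + 1)) 0 n) (x : Fin n → Bool) =>
        (R' (List.ofFn x, k)).1.getD i.1 false = true :=
      (a1.and hU (hB.mono fun _ _ ⟨i, hi⟩ => ⟨i.1, Or.inl hi.symm⟩)).congr fun n i x => by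
        simp only [R']
        split_ifs with h <;> simp [h]
    have a3 : ∀ j, PF _ fun n (_ : UI (fun n => Fin (f k * (n + 1) ^ c + 1)) 0 n)
        (x : Fin n → Bool) => (R' (List.ofFn x, k)).2 = j := fun j =>
      ((a1.and hU (hB.mono fun _ _ ⟨_, hi⟩ => ⟨j, Or.inr hi.symm⟩)).or hU
        ((a1.not hU).and hU (PF.cst hU fun _ _ => 1 = j))).congr fun n i x => by
        simp only [R']
        split_ifs with h <;> simp [h]
    have a4 : ∀ n, (fun _ => False) ∈ Set.range fun (_ : UI (fun n => Fin (f k * (n + 1) ^ c + 1)) 0 n)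
        (x : Fin n → Bool) => (R' (List.ofFn x, k)).2 = f k + 2 := fun n => ⟨default,
      funext fun x => eq_false fun h => by
        have := (h2 (List.ofFn x) k).1
        simp only [R'] at h
        split_ifs at h <;> omega⟩
    refine (a2.union (PS.fin (range (f k + 3)) fun j _ => a3 j)).mono ?_
    rintro n _ ⟨j, rfl | rfl⟩
    · by_cases hj : j < f k * (n + 1) ^ c + 1
      · exact Or.inl ⟨(⟨j, hj⟩, default), rfl⟩
      · refine Or.inr (Set.mem_iUnion₂.2 ⟨f k + 2, mem_range.2 (Nat.lt_succ_self _),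
          Set.mem_of_eq_of_mem (funext fun x => eq_false fun h => ?_) (a4 n)⟩)
        rw [List.getD_eq_default] at h
        · exact absurd h (by simp)
        have := hl n k x
        simp only [R']
        split_ifs
        · omega
        · simp
    · by_cases hj : j < f k + 3
      · exact Or.inr (Set.mem_iUnion₂.2 ⟨j, mem_range.2 hj, default, rfl⟩)
      · refine Or.inr (Set.mem_iUnion₂.2 ⟨f k + 2, mem_range.2 (Nat.lt_succ_self _),
          Set.mem_of_eq_of_mem (funext fun x => eq_false fun h => ?_) (a4 n)⟩)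
        have := (h2 (List.ofFn x) k).1
        simp only [R'] at h
        split_ifs at h <;> omega
  choose D A h4 using h4
  refine ⟨R', fun k => D k + A k + f k + 1, c * 3, fun p => (h1 p).trans ?_, fun x k => ?_,
    fun n k => ?_⟩
  · simp only [R']
    split_ifs with h
    · exact ⟨fun a => ⟨Cir.ok_mono _ t.le_succ a.1, a.2⟩, fun a => ⟨h, a.2⟩⟩
    · refine iff_of_false (fun a => h a.1) fun ⟨_, V, a1, a2, _⟩ => ?_
      obtain ⟨u, rfl⟩ := card_eq_one.1 a1
      exact absurd (bit_lt (a2 u (mem_singleton_self u))) (by simp)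
  · obtain ⟨a1, a2⟩ := h2 x k
    have a3 : f k * (x.length + 1) ^ c ≤ (D k + A k + f k + 1) * (x.length + 1) ^ (c * 3) :=
      Nat.mul_le_mul (by omega) (Nat.pow_le_pow_right (by omega) (by omega))
    simp only [R']
    split_ifs
    · exact ⟨by omega, a2.trans a3⟩
    · exact ⟨by omega, Nat.zero_le _⟩
  · obtain ⟨F, a1, a2, a3⟩ := h4 k n
    exact ⟨F, a1.mono (by simp only; omega), a2.trans (by
      rw [pow_mul]
      exact Nat.mul_le_mul_right _ (by simp only; omega)), fun j => a3 ⟨j, Or.inl rfl⟩,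
      fun j => a3 ⟨j, Or.inr rfl⟩⟩

end Pool.Agent.P.MP_d1c5a4_lc
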