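import Pool.Agent.P.MP_d1c5a4_lc.Defs

/-! Uniform probability on finite types. -/

namespace Pool.Agent.P.MP_d1c5a4_lc

open Finset Classical

/-- The probability of an event under the uniform distribution. -/
noncomputable def pr {Ω : Type} [Fintype Ω] (E : Ω → Prop) : ℝ :=
  ((univ.filter E).card : ℝ) / Fintype.card Ω

variable {Ω A B : Type} [Fintype Ω] [Fintype A] [Fintype B]

theorem pr_nonneg (E : Ω → Prop) : 0 ≤ pr E := by unfold pr; positivity

theorem pr_mono {E F : Ω → Prop} (h : ∀ ω, E ω → F ω) : pr E ≤ pr F := by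
  unfold pr
  gcongr
  exact h _

theorem pr_congr {E F : Ω → Prop} (h : ∀ ω, E ω ↔ F ω) : pr E = pr F := by
  rw [show E = F from funext fun ω => propext (h ω)]

theorem pr_le_one (E : Ω → Prop) : pr E ≤ 1 := by
  unfold pr
  refine div_le_one_of_le₀ ?_ (by positivity)
  exact_mod_cast card_le_univ _

theorem pr_false {E : Ω → Prop} (h : ∀ ω, ¬ E ω) : pr E = 0 := by
  unfold pr
  rw [filter_false_of_mem fun ω _ => h ω]
  simp

theorem pr_true [Nonempty Ω] {E : Ω → Prop} (h : ∀ ω, E ω) : pr E = 1 := by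
  unfold pr
  rw [filter_true_of_mem fun ω _ => h ω, card_univ]
  exact div_self (by exact_mod_cast Fintype.card_ne_zero)

theorem pr_not [Nonempty Ω] (E : Ω → Prop) : pr (fun ω => ¬ E ω) = 1 - pr E := by
  unfold pr
  have h : (Fintype.card Ω : ℝ) ≠ 0 := by exact_mod_cast Fintype.card_ne_zero
  have h2 := card_filter_add_card_filter_not (s := (univ : Finset Ω)) E
  rw [card_univ] at h2
  rw [eq_sub_iff_add_eq, ← add_div, div_eq_one_iff_eq h, ← h2]
  push_cast
  rw [add_comm]
  congr

theorem pr_or (E F : Ω → Prop) : pr (fun ω => E ω ∨ F ω) ≤ pr E + pr F := by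
  unfold pr
  rw [← add_div]
  gcongr
  exact_mod_cast (card_le_card (fun ω => by simp)).trans (card_union_le _ _)

theorem pr_le_or {E F G : Ω → Prop} (h : ∀ ω, E ω → F ω ∨ G ω) : pr E ≤ pr F + pr G :=
  (pr_mono h).trans (pr_or F G)

theorem pr_ex {ι : Type} (s : Finset ι) (E : ι → Ω → Prop) {ε : ℝ} (h : ∀ i ∈ s, pr (E i) ≤ ε) :
    pr (fun ω => ∃ i ∈ s, E i ω) ≤ s.card * ε := by
  induction s using Finset.induction_on with
  | empty => rw [pr_false (by simp)]; simp
  | insert i s hi ih =>
    rw [card_insert_of_notMem hi]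
    refine (pr_le_or (F := E i) (G := fun ω => ∃ i ∈ s, E i ω) (by simp)).trans ?_
    have h1 := h i (mem_insert_self i s)
    have h2 := ih fun j hj => h j (mem_insert_of_mem hj)
    push_cast
    linarith

theorem exists_of_pr_lt [Nonempty Ω] {E : Ω → Prop} (h : pr E < 1) : ∃ ω, ¬ E ω := by
  by_contra hc
  push Not at hc
  rw [pr_true hc] at h
  exact lt_irrefl _ h

theorem pr_prod (E : A × B → Prop) :
    pr E = (∑ a, pr fun b => E (a, b)) / Fintype.card A := by
  unfold pr
  rw [← sum_div, div_div, Fintype.card_prod, mul_comm, Nat.cast_mul]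
  congr 1
  simp only [card_filter, Nat.cast_sum]
  rw [Fintype.sum_prod_type]

theorem pr_bij {φ : A → B} (h : Function.Bijective φ) (E : B → Prop) :
    pr (fun a => E (φ a)) = pr E := by
  unfold pr
  rw [Fintype.card_of_bijective h]
  congr 2
  exact card_bijective φ h (by simp)

theorem pr_swap (E : A × B → Prop) : pr (fun p : B × A => E (p.2, p.1)) = pr E :=
  pr_bij (φ := Prod.swap) Prod.swap_bijective E

/-- Conditioning on the first coordinate. -/
theorem pr_cond_le (E : A × B → Prop) (F : A → Prop) {ε : ℝ} (hε : 0 ≤ ε)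
    (h : ∀ a, ¬ F a → pr (fun b => E (a, b)) ≤ ε) : pr E ≤ pr F + ε := by
  rcases isEmpty_or_nonempty A with hA | hA
  · rw [pr_false (fun p => isEmptyElim p.1)]
    exact add_nonneg (pr_nonneg _) hε
  have hc : (0 : ℝ) < Fintype.card A := by exact_mod_cast Fintype.card_pos
  rw [pr_prod, div_le_iff₀ hc, add_mul, pr, div_mul_cancel₀ _ hc.ne', card_filter]
  push_cast
  rw [mul_comm ε, ← nsmul_eq_mul, ← card_univ, ← sum_const, ← sum_add_distrib]
  refine sum_le_sum fun a _ => ?_
  split_ifs with h1
  · linarith [pr_le_one fun b => E (a, b)]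
  · linarith [h a h1]

theorem pr_le_of_all (E : A × B → Prop) {ε : ℝ} (hε : 0 ≤ ε)
    (h : ∀ a, pr (fun b => E (a, b)) ≤ ε) : pr E ≤ ε := by
  have := pr_cond_le E (fun _ => False) hε fun a _ => h a
  rwa [pr_false (E := fun _ : A => False) (by simp), zero_add] at this

theorem pr_and_cond (E : A → Prop) (F : A → B → Prop) {c : ℝ} (h : ∀ a, pr (F a) = c) :
    pr (fun p : A × B => E p.1 ∧ F p.1 p.2) = c * pr E := by
  rw [pr_prod, pr, ← mul_div_assoc, card_filter]
  congr 1
  push_cast
  rw [mul_sum]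
  refine sum_congr rfl fun a _ => ?_
  split_ifs with h1
  · simp [h1, h a]
  · simp [h1, pr_false]

theorem pr_and (E : A → Prop) (F : B → Prop) :
    pr (fun p : A × B => E p.1 ∧ F p.2) = pr E * pr F := by
  rw [pr_and_cond E (fun _ => F) fun _ => rfl, mul_comm]

theorem pr_fst [Nonempty B] (E : A → Prop) : pr (fun p : A × B => E p.1) = pr E := by
  have := pr_and E (fun _ : B => True)
  simpa [pr_true] using this

theorem pr_snd [Nonempty A] (E : B → Prop) : pr (fun p : A × B => E p.2) = pr E := by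
  have := pr_and (fun _ : A => True) E
  simpa [pr_true] using this

theorem pr_eq (b : B) : pr (fun x => x = b) = 1 / Fintype.card B := by
  unfold pr
  rw [filter_eq' univ b]
  simp

theorem pr_pi {κ : Type} [Fintype κ] [DecidableEq κ] (p : κ → A → Prop) :
    pr (fun f : κ → A => ∀ i, p i (f i)) = ∏ i, pr (p i) := by
  unfold pr
  rw [prod_div_distrib, prod_const, card_univ, Fintype.card_fun, ← Nat.cast_prod,
    ← Fintype.card_piFinset]
  push_cast
  congr 3
  ext f
  simp

theorem pr_pi_on {κ : Type} [Fintype κ] [DecidableEq κ] [Nonempty A] (D : Finset κ)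
    (p : κ → A → Prop) : pr (fun f : κ → A => ∀ i ∈ D, p i (f i)) = ∏ i ∈ D, pr (p i) := by
  rw [pr_pi fun i a => i ∈ D → p i a, ← prod_subset (subset_univ D)]
  · exact prod_congr rfl fun i hi => pr_congr fun a => by simp [hi]
  · exact fun i _ hi => pr_true fun a h => absurd h hi

/-- Measure preserving maps. -/
def MP (φ : A → B) : Prop := ∀ E : B → Prop, pr (fun a => E (φ a)) = pr E

theorem MP.of_pt {φ : A → B} (h : ∀ b, pr (fun a => φ a = b) = 1 / Fintype.card B) : MP φ := by
  intro E
  have h1 : (univ.filter fun a => E (φ a)).card =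
      ∑ b ∈ univ.filter E, (univ.filter fun a => φ a = b).card := by
    rw [card_eq_sum_card_fiberwise (f := φ) (t := univ.filter E) (fun a => by simp)]
    refine sum_congr rfl fun b hb => ?_
    rw [filter_filter]
    congr 1
    ext a
    simp only [mem_filter, mem_univ, true_and, and_iff_right_iff_imp] at hb ⊢
    rintro rfl
    exact hb
  have h2 : ∀ b, ((univ.filter fun a => φ a = b).card : ℝ) / Fintype.card A =
      1 / Fintype.card B := fun b => by
    rw [← h b, pr]
  rw [pr, pr, h1, Nat.cast_sum, sum_div, sum_congr rfl fun b _ => h2 b, sum_const, nsmul_eq_mul,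
    mul_one_div]

theorem MP.pt {φ : A → B} (h : MP φ) (b : B) : pr (fun a => φ a = b) = 1 / Fintype.card B := by
  rw [h fun x => x = b, pr_eq]

theorem MP.comp {C : Type} [Fintype C] {φ : A → B} {ψ : B → C} (h : MP ψ) (h' : MP φ) :
    MP (fun a => ψ (φ a)) := fun E => by rw [h' fun b => E (ψ b), h]

theorem MP.of_bij {φ : A → B} (h : Function.Bijective φ) : MP φ := pr_bij h

theorem MP.of_invol {φ : A → A} (h : Function.Involutive φ) : MP φ := pr_bij h.bijective

theorem MP.pi {κ : Type} [Fintype κ] [DecidableEq κ] {φ : κ → A → B} (h : ∀ i, MP (φ i)) :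
    MP (fun (f : κ → A) i => φ i (f i)) := by
  refine MP.of_pt fun g => ?_
  rw [pr_congr (F := fun f : κ → A => ∀ i, φ i (f i) = g i) fun f => funext_iff,
    pr_pi fun i a => φ i a = g i, prod_congr rfl fun i _ => (h i).pt (g i)]
  simp

theorem MP.fib {C : Type} [Fintype C] {φ : C → A → B} (h : ∀ c, MP (φ c)) :
    MP (fun p : C × A => (p.1, φ p.1 p.2)) := fun E => by
  rw [pr_prod, pr_prod]
  congr 1
  exact sum_congr rfl fun c _ => h c fun b => E (c, b)

theorem MP.fib' {C : Type} [Fintype C] {φ : C → A → B} (h : ∀ c, MP (φ c)) :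
    MP (fun p : A × C => (φ p.2 p.1, p.2)) := fun E => by
  rw [← pr_swap, ← pr_swap E]
  exact MP.fib h fun p => E (p.2, p.1)

theorem MP.fst [Nonempty B] : MP (Prod.fst : A × B → A) := pr_fst

theorem MP.snd [Nonempty A] : MP (Prod.snd : A × B → B) := pr_snd

theorem MP.restrict {κ κ' : Type} [Fintype κ] [DecidableEq κ] [Fintype κ'] [DecidableEq κ']
    [Nonempty A] {ι : κ → κ'} (hι : Function.Injective ι) : MP (fun (f : κ' → A) i => f (ι i)) := by
  refine MP.of_pt fun g => ?_
  have h1 : ∀ f : κ' → A, (fun i => f (ι i)) = g ↔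
      ∀ j ∈ univ.image ι, ∀ i, ι i = j → f j = g i := fun f => by
    simp only [funext_iff, mem_image, mem_univ, true_and, forall_exists_index,
      forall_apply_eq_imp_iff, hι.eq_iff, forall_eq]
  rw [pr_congr h1, pr_pi_on _ fun j a => ∀ i, ι i = j → a = g i, prod_image hι.injOn]
  simp [hι.eq_iff, pr_eq]

/-- Resampling of the coordinates outside `H`. -/
theorem MP.piece {κ : Type} [Fintype κ] [DecidableEq κ] [Nonempty A] (H : Finset κ) :
    MP (fun p : (κ → A) × (κ → A) => H.piecewise p.1 p.2) := by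
  have h : Function.Involutive fun p : (κ → A) × (κ → A) =>
      (H.piecewise p.1 p.2, H.piecewise p.2 p.1) := by
    rintro ⟨f, g⟩
    refine Prod.ext (funext fun i => ?_) (funext fun i => ?_) <;> by_cases hi : i ∈ H <;>
      simp only [piecewise_eq_of_mem _ _ _, piecewise_eq_of_notMem _ _ _, hi, not_false_eq_true]
  intro E
  rw [← pr_fst (B := κ → A) E]
  exact MP.of_invol h fun p => E p.1

attribute [irreducible] pr

end Pool.Agent.P.MP_d1c5a4_lc
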