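import Pool.Agent.P.MP_d1c5a4_lc.Sip

/-! Small bounded depth circuits see only few of the planted rows. -/

namespace Pool.Agent.P.MP_d1c5a4_lc

open Finset Classical Filter

/-- The state of a column: old entries, planted entries, and the state of its variable. -/
abbrev CS (k n Q d : ℕ) : Type := (Fin k × Fin n → Bool) × (Fin k → Bool) × St Q d

variable {k n Q d : ℕ} {Col : Type}

/-- The matrix with the rows in `T` planted and the live columns flipped according to `z`. -/
noncomputable def mat (σ : Col → CS k n Q d) (x : Fin k → Fin n) (T : Finset (Fin k))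
    (z : Col → Bool) (p : (Fin k × Fin n) × Col) : Bool :=
  xor (if p.1.1 ∈ T ∧ p.1.2 = x p.1.1 then (σ p.2).2.1 p.1.1 else (σ p.2).1 p.1)
    ((σ p.2).2.2.st && z p.2)

/-- `g` sees at most `c` planted rows and at most `s` live columns. -/
def Good0 (c s : ℕ) (g : Fn ((Fin k × Fin n) × Col)) (x : Fin k → Fin n) (σ : Col → CS k n Q d) :
    Prop :=
  ∃ T' : Finset (Fin k), T'.card ≤ c ∧ (∀ T z, g (mat σ x T z) ↔ g (mat σ x (T ∩ T') z)) ∧
    ∀ T, Jun s fun z => g (mat σ x T z)

/-- The state of a column obtained from two candidate columns. -/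
def φc (x : Fin k → Fin n) (ρ : Fin k × Fin n → St Q d)
    (p : ((Fin k × Fin n → Bool) × (Fin k × Fin n → Bool)) × St Q d) : CS k n Q d :=
  (fun a => xor (if (ρ a).ub then p.1.2 a else p.1.1 a) p.2.ub,
    fun i => xor (if (ρ (i, x i)).ub then p.1.1 (i, x i) else p.1.2 (i, x i)) p.2.ub, p.2)

theorem inj_row (x : Fin k → Fin n) : Function.Injective fun i => (i, x i) :=
  fun _ _ h => (Prod.ext_iff.1 h).1

theorem mp_φc (x : Fin k → Fin n) (ρ : Fin k × Fin n → St Q d) : MP (φc x ρ) := by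
  have h1 : Function.Involutive
      fun p : ((Fin k × Fin n → Bool) × (Fin k × Fin n → Bool)) × St Q d =>
        ((fun a => xor (if (ρ a).ub then p.1.2 a else p.1.1 a) p.2.ub,
          fun a => xor (if (ρ a).ub then p.1.1 a else p.1.2 a) p.2.ub), p.2) := by
    rintro ⟨⟨A, B⟩, τ⟩
    refine Prod.ext (Prod.ext (funext fun a => ?_) (funext fun a => ?_)) rfl <;>
      cases h : (ρ a).ub <;> simp [h]
  exact ((MP.fib fun _ : Fin k × Fin n → Bool => MP.fib' fun _ : St Q d =>
    MP.restrict (A := Bool) (inj_row x)).comp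
      (MP.of_bij (Equiv.prodAssoc _ _ _).bijective)).comp (MP.of_invol h1)

theorem key [Fintype Col] [DecidableEq Col] [NeZero n] {c s S : ℕ} {ε : ℝ} (hε : 0 ≤ ε)
    (hAC : ∀ f : Fn ((Fin k × Fin n) ⊕ Col), NN 2 S d f →
      pr (fun ω : (Fin k × Fin n) ⊕ Col → St Q d => ¬ Jun s fun y => f (xs ω y)) ≤ ε)
    {g : Fn ((Fin k × Fin n) × Col)} (hg : NN 1 S d g) :
    ((1 / (Q + 1 : ℝ)) ^ d) ^ k *
      pr (fun p : (Fin k → Fin n) × (Col → CS k n Q d) => ¬ Good0 c s g p.1 p.2) ≤
      ε + (k * (s / n : ℝ)) ^ (c + 1) := by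
  rw [← pr_and_cond (fun p : (Fin k → Fin n) × (Col → CS k n Q d) => ¬ Good0 c s g p.1 p.2)
    (fun p (ρ : Fin k × Fin n → St Q d) => ∀ i, (ρ (i, p.1 i)).st = true) fun p => by
      rw [pr_all_inj (inj_row p.1) fun σ : St Q d => σ.st = true, St.pr_st, Fintype.card_fin]]
  let AB := Col → (Fin k × Fin n → Bool) × (Fin k × Fin n → Bool)
  have h1 : Function.Bijective fun o : AB × ((Fin k × Fin n) ⊕ Col → St Q d) =>
      (fun c => (o.1 c, o.2 (Sum.inr c)), fun a => o.2 (Sum.inl a)) :=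
    Function.bijective_iff_has_inverse.2 ⟨fun p => (fun c => (p.1 c).1,
      Sum.elim p.2 fun c => (p.1 c).2), fun o => Prod.ext rfl (funext fun v => by
        cases v <;> rfl), fun _ => rfl⟩
  have h2 := (MP.of_bij (Equiv.prodAssoc _ _ _).symm.bijective).comp
    (MP.fib fun x : Fin k → Fin n =>
      (MP.fib' fun ρ => MP.pi fun _ : Col => mp_φc (Q := Q) (d := d) x ρ).comp (MP.of_bij h1))
  rw [← h2, ← pr_swap]
  let G : AB → Fn ((Fin k × Fin n) ⊕ Col) := fun o y => g fun p =>
    xor (if y (Sum.inl p.1) then (o p.2).2 p.1 else (o p.2).1 p.1) (y (Sum.inr p.2))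
  refine (pr_cond_le _ (fun o => ¬ Jun s fun y => G o.1 (xs o.2 y)) (by positivity)
    fun o ho => ?_).trans (add_le_add_left (pr_le_of_all _ hε fun o => hAC (G o) ?_) _)
  · obtain ⟨D, hD, hD'⟩ := not_not.1 ho
    have h3 := pr_many (fun (i : Fin k) (a : Fin n) => Sum.inl (i, a) ∈ D) (q := s / n)
      (fun i => ?_) univ (c + 1)
    · rw [card_univ, Fintype.card_fin] at h3
      refine le_trans (pr_mono fun x ⟨h4, h5⟩ => ?_) h3
      by_contra hc
      let yy : Finset (Fin k) → (Col → Bool) → (Fin k × Fin n) ⊕ Col → Bool := fun T z =>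
        Sum.elim (fun a => decide (a.1 ∈ T ∧ a.2 = x a.1)) z
      have e : ∀ T z, g (mat (fun c => φc x (fun a => o.2 (Sum.inl a)) (o.1 c, o.2 (Sum.inr c)))
          x T z) ↔ G o.1 (xs o.2 (yy T z)) := fun T z => by
        refine iff_of_eq (congrArg g (funext fun ⟨⟨i, a⟩, c⟩ => ?_))
        by_cases h : i ∈ T ∧ a = x i
        · obtain ⟨h, rfl⟩ := h
          have h6 : (o.2 (Sum.inl (i, x i))).st = true := h5 i
          cases h7 : (o.2 (Sum.inl (i, x i))).ub <;> simp [mat, φc, xs, yy, h, h6, h7]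
        · simp only [mat, φc, xs, yy, Sum.elim_inl, Sum.elim_inr, if_neg h, decide_eq_false h,
            Bool.and_false, Bool.xor_false, Bool.xor_assoc]
      refine h4 ⟨_, Nat.le_of_lt_succ (not_le.1 hc), fun T z => ?_, fun T => ?_⟩
      · refine (e _ _).trans ((hD'.iff fun v hv => ?_).trans (e _ _).symm)
        rcases v with ⟨i, a⟩ | c
        · simp only [yy, Sum.elim_inl, mem_inter, mem_filter, mem_univ, true_and, decide_eq_decide]
          exact ⟨fun h => ⟨⟨h.1, h.2 ▸ hv⟩, h.2⟩, fun h => ⟨h.1.1, h.2⟩⟩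
        · rfl
      · refine ((Jun.comp (c := 1) ⟨D, hD, hD'⟩ (φ := yy T) fun v => ?_).mono (by omega)).congr (e T)
        rcases v with a | c
        · exact Jun.const 1 (yy T (fun _ => true) (Sum.inl a) = true)
        · exact Jun.var c
    · have h4 := pr_ex (univ.filter fun a : Fin n => Sum.inl (i, a) ∈ D) (fun a b => b = a)
        fun a _ => (pr_eq a).le
      refine (pr_mono fun a ha => ⟨a, by simpa using ha, rfl⟩).trans (h4.trans ?_)
      rw [Fintype.card_fin, mul_one_div]
      gcongr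
      exact le_trans (card_le_card_of_injOn (fun a => Sum.inl (i, a)) (fun a ha => by simpa using ha)
        fun a _ b _ h => by simpa using h) hD
  · refine hg.comp (c := 2) fun p => ⟨{Sum.inl p.1, Sum.inr p.2}, card_le_two, fun x y h => ?_⟩
    simp only [h (Sum.inl p.1) (by simp), h (Sum.inr p.2) (by simp), imp_self]

/-! ### Columns of odd parity -/

/-- Flip one bit. -/
def flp (b : Fin k → Bool) (i : Fin k) : Fin k → Bool := Function.update b i (!b i)

/-- The parity. -/
def par (b : Fin k → Bool) : ZMod 2 := ∑ i, if b i then 1 else 0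

theorem par_flp (b : Fin k → Bool) (i : Fin k) : par (flp b i) = par b + 1 := by
  unfold par
  rw [← add_sum_erase _ _ (mem_univ i), ← add_sum_erase _ _ (mem_univ i),
    sum_congr rfl (g := fun i => if b i then (1 : ZMod 2) else 0) fun j hj => by
      rw [flp, Function.update_of_ne (ne_of_mem_erase hj)], add_right_comm]
  congr 1
  rw [flp, Function.update_self]
  cases b i <;> decide

/-- A column of odd parity. -/
def pat (b : Fin (k + 1) → Bool) : Fin (k + 1) → Bool := if par b = 1 then b else flp b 0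

/-- An involution that agrees with `pat` off `i`. -/
def ψ (i : Fin (k + 1)) (b : Fin (k + 1) → Bool) : Fin (k + 1) → Bool :=
  if par b = 1 then b else flp (flp b 0) i

theorem pat_eq {i a : Fin (k + 1)} (h : a ≠ i) (b : Fin (k + 1) → Bool) : pat b a = ψ i b a := by
  unfold pat ψ
  split_ifs
  · rfl
  · exact (Function.update_of_ne h _ _).symm

theorem ψ_invol (i : Fin (k + 1)) : Function.Involutive (ψ i) := by
  intro b
  by_cases h : par b = 1
  · simp [ψ, h]
  · have h1 : par (flp (flp b 0) i) = par b := by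
      rw [par_flp, par_flp, add_assoc, show (1 + 1 : ZMod 2) = 0 from rfl, add_zero]
    simp only [ψ, h, if_false, h1]
    funext a
    by_cases h2 : a = i <;> by_cases h3 : a = 0 <;> by_cases h4 : i = 0 <;>
      simp_all [flp, Function.update_apply]

theorem pat_ne (b : Fin (k + 1) → Bool) : ∃ i, pat b i = true := by
  have h : par (pat b) = 1 := by
    unfold pat
    split_ifs with h
    · exact h
    · rw [par_flp]
      revert h
      generalize par b = y
      revert y
      decide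
  by_contra hc
  push Not at hc
  simp [par, hc] at h

theorem pat_true (c : ℕ) : pat (fun _ : Fin (2 * c + 1) => true) = fun _ => true := by
  rw [pat, if_pos]
  simp only [par, if_true, sum_const, card_univ, Fintype.card_fin, nsmul_eq_mul, mul_one]
  push_cast
  rw [show (2 : ZMod 2) = 0 from rfl, zero_mul, zero_add]

/-- Change the planted entries of all columns. -/
def mp (f : (Fin k → Bool) → Fin k → Bool) (σ : Col → CS k n Q d) : Col → CS k n Q d :=
  fun c => ((σ c).1, f (σ c).2.1, (σ c).2.2)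

theorem mp_ψ [Fintype Col] [DecidableEq Col] (i : Fin (k + 1)) :
    MP (mp (ψ i) : (Col → CS (k + 1) n Q d) → _) :=
  MP.of_invol fun σ => funext fun c => by simp only [mp, ψ_invol i _]

theorem mat_pat (σ : Col → CS (k + 1) n Q d) (x : Fin (k + 1) → Fin n) {T : Finset (Fin (k + 1))}
    {i : Fin (k + 1)} (hi : i ∉ T) (z : Col → Bool) :
    mat (mp pat σ) x T z = mat (mp (ψ i) σ) x T z := by
  funext p
  unfold mat
  split_ifs with h
  · simp only [mp, pat_eq (ne_of_mem_of_not_mem h.1 hi)]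
  · rfl

/-! ### Circuits of fan-in two -/

variable {α : Type}

/-- Functions that are generated inside `F` by gates of fan-in two. -/
inductive BG (F : Set (Fn α)) : Fn α → Prop
  | base {g : Fn α} : Jun 1 g → BG F g
  | bin {g g₁ g₂ : Fn α} : BG F g₁ → BG F g₂ → g ∈ F →
      (∀ x y, (g₁ x ↔ g₁ y) → (g₂ x ↔ g₂ y) → (g x ↔ g y)) → BG F g

theorem BG.mono {F F' : Set (Fn α)} {g : Fn α} (h : BG F g) (hF : F ⊆ F') : BG F' g := by
  induction h with
  | base h => exact .base h
  | bin _ _ h1 h2 i1 i2 => exact .bin i1 i2 (hF h1) h2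

theorem chain (b : Prop) (P : Finset (Fn α)) : ∃ C : Finset (Fn α), C.card ≤ P.card ∧
    (∀ h ∈ C, ∃ P' ⊆ P, h = fun x => ¬ ∀ g ∈ P', g x ↔ b) ∧
    ∀ F : Set (Fn α), (C : Set (Fn α)) ⊆ F → (∀ g ∈ P, BG F g) →
      BG F fun x => ¬ ∀ g ∈ P, g x ↔ b := by
  induction P using Finset.induction_on with
  | empty => exact ⟨∅, le_rfl, by simp, fun F _ _ => .base ((Jun.const 1 False).congr (by simp))⟩
  | insert g P hg ih =>
    obtain ⟨C, h1, h2, h3⟩ := ih
    refine ⟨insert (fun x => ¬ ∀ g' ∈ insert g P, g' x ↔ b) C, ?_, fun h hh => ?_, fun F h4 h5 => ?_⟩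
    · rw [card_insert_of_notMem hg]
      exact (card_insert_le _ _).trans (by omega)
    · rcases mem_insert.1 hh with rfl | hh
      · exact ⟨_, Subset.rfl, rfl⟩
      · obtain ⟨P', h6, h7⟩ := h2 h hh
        exact ⟨P', h6.trans (subset_insert _ _), h7⟩
    · refine .bin (h5 g (mem_insert_self _ _)) (h3 F ((coe_subset.2 (subset_insert _ _)).trans h4)
        fun g hg => h5 g (mem_insert_of_mem hg)) (h4 (mem_coe.2 (mem_insert_self _ _)))
        fun x y a1 a2 => ?_
      simp only [forall_mem_insert, a1, not_iff_not.1 a2]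

theorem lay_bg [Finite α] {S : ℕ} (hS : 1 ≤ S) (d : ℕ) (F : Set (Fn α)) (hF : Lay d F)
    (hc : F.ncard ≤ S) : ∃ F' : Finset (Fn α), F'.card ≤ (d + 1) * (S + 1) ^ 2 ∧
      (∀ g ∈ F', NN 1 S (3 * d) g) ∧ ∀ f ∈ F, f ∈ F' ∧ BG F' f := by
  have hfin := F.toFinite
  have hc' : hfin.toFinset.card ≤ S := by rwa [← Set.ncard_eq_toFinset_card]
  induction d generalizing F with
  | zero =>
    have h1 : ∀ f ∈ F, Jun 1 f := fun f hf => by
      obtain ⟨i, rfl⟩ := hF f hf
      exact Jun.var i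
    exact ⟨hfin.toFinset, hc'.trans (by nlinarith), fun g hg => h1 g (by simpa using hg),
      fun f hf => ⟨by simpa using hf, .base (h1 f hf)⟩⟩
  | succ d ih =>
    obtain ⟨G, hG, h1, h2⟩ := hF
    have hGc := (Set.ncard_le_ncard hG hfin).trans hc
    obtain ⟨G', g1, g2, g3⟩ := ih G h1 hGc G.toFinite (by rwa [← Set.ncard_eq_toFinset_card])
    have h3 : ∀ f ∈ hfin.toFinset, ∃ C : Finset (Fn α), C.card ≤ S + 1 ∧
        (∀ g ∈ C, NN 1 S (3 * (d + 1)) g) ∧ f ∈ C ∧
        ∀ F' : Set (Fn α), (C : Set (Fn α)) ⊆ F' → (G' : Set (Fn α)) ⊆ F' → BG F' f := by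
      intro f hf
      have hn : ∀ (b : Prop) (P : Finset (Fn α)), (P : Set (Fn α)) ⊆ G →
          NN 1 S (3 * d + 2) fun x => ¬ ∀ g ∈ P, g x ↔ b := fun b P hP =>
        NN.nand P ((Set.ncard_coe_finset P).symm.trans_le
          ((Set.ncard_le_ncard hP G.toFinite).trans hGc)) (g := fun g x => g x ↔ b) fun g hg => by
            have := g2 g (g3 g (hP hg)).1
            by_cases hb : b
            · exact (this.up hS).congr (by simp [hb])
            · exact (this.neg hS).congr (by simp [hb])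
      have hq : ∀ (b b' : Prop) (P : Set (Fn α)), P ⊆ G → (∀ x, f x ↔ ((∀ g ∈ P, g x ↔ b) ↔ b')) →
          ∃ C : Finset (Fn α), C.card ≤ S + 1 ∧ (∀ g ∈ C, NN 1 S (3 * (d + 1)) g) ∧ f ∈ C ∧
          ∀ F' : Set (Fn α), (C : Set (Fn α)) ⊆ F' → (G' : Set (Fn α)) ⊆ F' → BG F' f := by
        intro b b' P hP e
        lift P to Finset (Fn α) using P.toFinite
        obtain ⟨C, c1, c2, c3⟩ := chain b P
        have c4 := (Set.ncard_coe_finset P).symm.trans_le
          ((Set.ncard_le_ncard hP G.toFinite).trans hGc)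
        refine ⟨insert f C, (card_insert_le _ _).trans (by omega), fun g hg => ?_,
          mem_insert_self _ _, fun F' a1 a2 => ?_⟩
        · rcases mem_insert.1 hg with rfl | hg
          · by_cases hb : b'
            · exact ((hn b P hP).neg hS).congr fun x => by simp [e, hb]
            · exact ((hn b P hP).up hS).congr fun x => by simp [e, hb]
          · obtain ⟨P', c5, rfl⟩ := c2 g hg
            exact (hn b P' ((coe_subset.2 c5).trans hP)).up hS
        · have := c3 F' ((coe_subset.2 (subset_insert _ _)).trans a1)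
            fun g hg => (g3 g (hP hg)).2.mono a2
          refine .bin this this (a1 (mem_coe.2 (mem_insert_self _ _))) fun x y a _ => ?_
          simp only [e, mem_coe, not_iff_not.1 a]
      rcases h2 f (by simpa using hf) with h | ⟨g, hg, rfl⟩ | ⟨P, hP, rfl | rfl⟩
      · exact hq True True {f} (by simpa) (by simp)
      · exact hq False True {g} (by simpa) (by simp)
      · exact hq True True P hP (by simp)
      · exact hq False False P hP (by simp)
    choose! C c1 c2 c3 c4 using h3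
    refine ⟨G' ∪ hfin.toFinset.biUnion C, (card_union_le _ _).trans ?_, fun g hg => ?_,
      fun f hf => ?_⟩
    · have := (card_biUnion_le_card_mul _ _ _ c1).trans (Nat.mul_le_mul_right _ hc')
      nlinarith
    · rcases mem_union.1 hg with hg | hg
      · exact (g2 g hg).le hS (by omega)
      · obtain ⟨f, hf, hg⟩ := mem_biUnion.1 hg
        exact c2 f hf g hg
    · have hf' : f ∈ hfin.toFinset := by simpa using hf
      have h4 : C f ⊆ G' ∪ hfin.toFinset.biUnion C :=
        (subset_biUnion_of_mem C hf').trans subset_union_right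
      exact ⟨h4 (c3 f hf'), c4 f hf' _ (coe_subset.2 h4) (coe_subset.2 subset_union_left)⟩

theorem rossman {c s : ℕ} (hc : 1 ≤ c) {F : Set (Fn α)}
    {enc : ((Fin (2 * c + 1) × Fin n) × Col → Bool) → α → Bool}
    (he : ∀ i, Jun 1 fun y => enc y i = true) {x : Fin (2 * c + 1) → Fin n}
    {σ : Col → CS (2 * c + 1) n Q d}
    (hF : ∀ g ∈ F, ∀ i, Good0 c s (fun y => g (enc y)) x (mp (ψ i) σ)) {g : Fn α} (hg : BG F g) :
    ∃ T' : Finset (Fin (2 * c + 1)), T'.card ≤ c ∧
      ∀ T z, g (enc (mat (mp pat σ) x T z)) ↔ g (enc (mat (mp pat σ) x (T ∩ T') z)) := by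
  induction hg with
  | base h =>
    obtain ⟨D, h1, h2⟩ := h.comp he
    refine ⟨D.image fun p => p.1.1, card_image_le.trans (by omega), fun T z => h2.iff fun p hp => ?_⟩
    simp only [mat, mem_inter, mem_image_of_mem (fun p => p.1.1) hp, and_true]
  | @bin g g₁ g₂ _ _ h1 h2 i1 i2 =>
    obtain ⟨T₁, a1, b1⟩ := i1
    obtain ⟨T₂, a2, b2⟩ := i2
    obtain ⟨i, -, hi⟩ := exists_mem_notMem_of_card_lt_card (s := T₁ ∪ T₂) (t := univ)
      ((card_union_le _ _).trans_lt (by simp; omega))
    obtain ⟨T', a3, b3, -⟩ := hF g h1 i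
    refine ⟨(T₁ ∪ T₂) ∩ T', (card_le_card inter_subset_right).trans a3, fun T z => ?_⟩
    rw [h2 _ (enc (mat (mp pat σ) x (T ∩ (T₁ ∪ T₂)) z))
      (by rw [b1 T, b1 (T ∩ (T₁ ∪ T₂)), inter_assoc, union_inter_cancel_left])
      (by rw [b2 T, b2 (T ∩ (T₁ ∪ T₂)), inter_assoc, union_inter_cancel_right]),
      mat_pat σ x (i := i) (fun h => hi (mem_inter.1 h).2),
      mat_pat σ x (i := i) (fun h => hi (mem_inter.1 (mem_inter.1 h).2).1), ← inter_assoc]
    exact b3 _ _

/-- All gates of a small circuit become juntas. -/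
theorem jt (E d a : ℕ) (ha : 9 * d * (2 * (2 * E + 1) + 1) + 1 ≤ a) : ∃ s, ∀ᶠ L : ℕ in atTop,
    ∀ (Col α : Type) [Fintype Col] [DecidableEq Col] [Finite α]
      (enc : ((Fin (2 * (2 * E + 1) + 1) × Fin (L ^ a)) × Col → Bool) → α → Bool),
      (∀ i, Jun 1 fun y => enc y i = true) → ∀ F : Set (Fn α), Lay d F → F.ncard ≤ (L ^ a) ^ E →
      pr (fun p : (Fin (2 * (2 * E + 1) + 1) → Fin (L ^ a)) ×
          (Col → CS (2 * (2 * E + 1) + 1) (L ^ a) (L ^ 2) (3 * d)) =>
        ¬ ∀ f ∈ F, Jun s fun z => f (enc (mat (mp pat p.2) p.1 univ z))) ≤ 1 / 4 := by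
  set c := 2 * E + 1 with hc
  set k := 2 * c + 1 with hk
  obtain ⟨s, hs⟩ := ac_ev (3 * d) 2 (a * E) (2 * (a * E) + 9 * d * k + 1)
  refine ⟨s, ?_⟩
  filter_upwards [hs, ev_ge 2, eventually_ge_atTop 1,
    ev_ge (16 * (d + 1) * k * (1 + (k * s) ^ (c + 1)))] with L h1 a1 a2 a3 Col α _ _ _ enc he F hF hS
  rw [← pow_mul] at hS
  have hS1 : 1 ≤ L ^ (a * E) := Nat.one_le_pow _ _ a2
  obtain ⟨F', f1, f2, f3⟩ := lay_bg hS1 d F hF hS
  have : NeZero (L ^ a) := ⟨(Nat.pow_pos a2).ne'⟩
  set η : ℝ := L ^ (9 * d * k) * (1 / (L : ℝ) ^ (2 * (a * E) + 9 * d * k + 1) +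
    (k * (s / (L ^ a : ℕ) : ℝ)) ^ (c + 1)) with hη
  have hL : (0 : ℝ) < L := by linarith
  have h2 : ∀ g ∈ F', pr (fun p : (Fin k → Fin (L ^ a)) × (Col → CS k (L ^ a) (L ^ 2) (3 * d)) =>
      ∃ i ∈ univ, ¬ Good0 c s (fun y => g (enc y)) p.1 (mp (ψ i) p.2)) ≤ k * η := fun g hg => by
    refine (pr_ex univ _ (ε := η) fun i _ => ?_).trans (by rw [card_univ, Fintype.card_fin])
    have h3 := key (c := c) (by positivity) (h1 ((Fin k × Fin (L ^ a)) ⊕ Col)) ((f2 g hg).comp he)
    rw [MP.fib (fun _ : Fin k → Fin (L ^ a) => mp_ψ i)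
      fun p => ¬ Good0 c s (fun y => g (enc y)) p.1 p.2]
    refine le_trans ?_ (mul_le_mul_of_nonneg_left h3 (by positivity))
    rw [← mul_assoc]
    refine le_mul_of_one_le_left (pr_nonneg _) ?_
    rw [show 9 * d * k = 3 * (3 * d) * k by ring, pow_mul, pow_mul, ← mul_pow, ← mul_pow]
    refine one_le_pow₀ (one_le_pow₀ ?_)
    rw [mul_one_div, one_le_div (by positivity)]
    push_cast
    nlinarith [pow_pos hL 2]
  refine (pr_mono fun p hp => ?_).trans ((pr_ex F' _ h2).trans ?_)
  · by_contra hn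
    push Not at hn
    refine hp fun f hf => ?_
    obtain ⟨T', b1, b2⟩ := rossman (F := F') (by omega) he (fun g hg i => hn g hg i (mem_univ i))
      (f3 f hf).2
    obtain ⟨i, -, hi⟩ := exists_mem_notMem_of_card_lt_card (s := T') (t := univ) (by simp; omega)
    obtain ⟨-, -, -, b3⟩ := hn f (f3 f hf).1 i (mem_univ i)
    exact (b3 (univ ∩ T')).congr fun z => by
      rw [b2, mat_pat p.2 p.1 (i := i) fun h => hi (mem_inter.1 h).2]
  · have g1 : (F'.card : ℝ) ≤ (d + 1) * (4 * L ^ (2 * (a * E))) := by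
      have : F'.card ≤ (d + 1) * (4 * L ^ (2 * (a * E))) :=
        f1.trans (Nat.mul_le_mul_left _ (by rw [pow_mul' L 2]; nlinarith))
      exact_mod_cast this
    have g2 : (L : ℝ) ^ (2 * (a * E)) * η ≤ (1 + (k * s) ^ (c + 1)) / L := by
      rw [hη, ← mul_assoc, ← pow_add, mul_add, add_div]
      refine add_le_add (le_of_eq (by field_simp; ring)) ?_
      rw [← mul_div_assoc, div_pow, ← mul_div_assoc, mul_comm, mul_div_assoc, div_eq_mul_one_div _ (L : ℝ)]
      refine mul_le_mul_of_nonneg_left ?_ (by positivity)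
      rw [div_le_div_iff₀ (by positivity) hL, one_mul, ← pow_succ]
      push_cast
      rw [← pow_mul]
      refine pow_le_pow_right₀ (by linarith) ?_
      rw [hc]
      nlinarith
    have g3 : 0 ≤ η := by positivity
    calc (F'.card : ℝ) * (k * η) ≤ (d + 1) * (4 * L ^ (2 * (a * E))) * (k * η) := by gcongr
      _ = 4 * (d + 1) * k * (L ^ (2 * (a * E)) * η) := by ring
      _ ≤ 4 * (d + 1) * k * ((1 + (k * s) ^ (c + 1)) / L) := by gcongr
      _ ≤ 1 / 4 := by
        rw [← mul_div_assoc, div_le_div_iff₀ hL (by norm_num)]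
        linarith

end Pool.Agent.P.MP_d1c5a4_lc
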