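import Pool.Agent.P.MP_d1c5a4_lc.Fss

/-! Iterated restrictions, and the depth hierarchy theorem for formulas over juntas. -/

namespace Pool.Agent.P.MP_d1c5a4_lc

open Finset Classical Filter

theorem pr_all_inj {κ κ' A : Type} [Fintype κ] [DecidableEq κ] [Fintype κ'] [DecidableEq κ']
    [Fintype A] [Nonempty A] {ι : κ → κ'} (hι : Function.Injective ι) (p : A → Prop) :
    pr (fun ω : κ' → A => ∀ r, p (ω (ι r))) = pr p ^ Fintype.card κ := by
  rw [MP.restrict hι fun f : κ → A => ∀ r, p (f r), pr_pi fun _ => p]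
  simp

theorem pow_small {p : ℝ} (h0 : 0 ≤ p) (h1 : p ≤ 1) {m : ℕ} (h : 1 / 2 ≤ m * p) (L : ℕ) :
    (1 - p) ^ (m * L) ≤ (2 / 3) ^ L := by
  rw [pow_mul]
  have h2 : 0 ≤ (1 - p) ^ m := pow_nonneg (by linarith) _
  refine pow_le_pow_left₀ h2 ?_ _
  have h3 := one_add_mul_le_pow (a := p) (by linarith) m
  have h4 : (1 - p) ^ m * (1 + p) ^ m ≤ 1 := by
    rw [← mul_pow]
    exact pow_le_one₀ (by nlinarith) (by nlinarith)
  nlinarith

theorem pr_zero (Q : ℕ) : pr (fun a : Fin (Q + 1) => a = 0) = 1 / (Q + 1 : ℝ) := by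
  rw [pr_eq]
  simp

theorem pr_ne_zero {Q : ℕ} (hQ : 1 ≤ Q) : 1 / 2 ≤ pr (fun a : Fin (Q + 1) => ¬ a = 0) := by
  have : (1 : ℝ) ≤ Q := by exact_mod_cast hQ
  have h : 1 / (Q + 1 : ℝ) ≤ 1 / 2 := one_div_le_one_div_of_le two_pos (by linarith)
  rw [pr_not, pr_zero]
  linarith

theorem star_le {A : Type} [Fintype A] [Nonempty A] {L : ℕ} (hL : (1 : ℝ) ≤ L) :
    pr (fun σ : A × Fin (L ^ 2 + 1) => σ.2 = 0) ≤ 1 / (L : ℝ) ^ 2 := by
  rw [pr_snd fun a : Fin (L ^ 2 + 1) => a = 0, pr_zero]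
  exact one_div_le_one_div_of_le (by positivity) (by simp)

theorem pr_bits {κ : Type} [Fintype κ] [DecidableEq κ] (D : Finset κ) (x : κ → Bool) :
    pr (fun u : κ → Bool => ∀ a ∈ D, u a = x a) = (1 / 2) ^ D.card := by
  rw [pr_pi_on D fun a b => b = x a]
  simp [pr_eq]

/-- The ordinary random restriction. -/
def sch1 (V : Type) (Q : ℕ) : Sch V V (Bool × Fin (Q + 1)) where
  β := id
  star σ := σ.2 = 0
  rd σ _ b := xor σ.1 (decide (σ.2 = 0) && b)
  off σ v b h := by simp [h]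

theorem sch1_rich (V : Type) [Fintype V] [DecidableEq V] {Q : ℕ} (hQ : 1 ≤ Q) (W : ℕ) :
    (sch1 V Q).Rich W ((1 / 4) ^ W) := by
  intro D x hD
  rw [pr_congr (F := fun ω : V → Bool × Fin (Q + 1) => ∀ v ∈ D, (ω v).1 = x v ∧ ¬ (ω v).2 = 0)
    fun ω => by simp [sch1, and_comm], pr_pi_on D fun v (σ : Bool × Fin (Q + 1)) =>
      σ.1 = x v ∧ ¬ σ.2 = 0]
  refine (pow_le_pow_of_le_one (by norm_num) (by norm_num) hD).trans ?_
  rw [← prod_const]
  refine prod_le_prod (fun _ _ => by norm_num) fun v _ => ?_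
  rw [pr_and (fun b => b = x v) fun a : Fin (Q + 1) => ¬ a = 0, pr_eq]
  have := pr_ne_zero hQ
  simp only [Fintype.card_bool, Nat.cast_ofNat]
  linarith

/-- The states of a variable in `d` rounds. -/
def St (Q : ℕ) : ℕ → Type
  | 0 => Unit
  | d + 1 => (Bool × Fin (Q + 1)) × St Q d

instance St.fin (Q : ℕ) : ∀ d, Fintype (St Q d)
  | 0 => inferInstanceAs (Fintype Unit)
  | d + 1 => @instFintypeProd _ _ _ (St.fin Q d)

instance St.ne (Q : ℕ) : ∀ d, Nonempty (St Q d)
  | 0 => inferInstanceAs (Nonempty Unit)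
  | d + 1 => @instNonemptyProd _ _ _ (St.ne Q d)

/-- The variable stays alive. -/
def St.st {Q : ℕ} : ∀ {d}, St Q d → Bool
  | 0, _ => true
  | _ + 1, σ => decide (σ.1.2 = 0) && St.st σ.2

/-- The default value of the variable. -/
def St.ub {Q : ℕ} : ∀ {d}, St Q d → Bool
  | 0, _ => false
  | _ + 1, σ => xor σ.1.1 (decide (σ.1.2 = 0) && St.ub σ.2)

theorem St.pr_st (Q d : ℕ) : pr (fun σ : St Q d => σ.st = true) = (1 / (Q + 1 : ℝ)) ^ d := by
  induction d with
  | zero => exact (pr_true fun _ => rfl).trans (pow_zero _).symm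
  | succ d ih =>
    have := pr_and (fun σ : Bool × Fin (Q + 1) => σ.2 = 0) fun σ : St Q d => σ.st = true
    rw [ih, pr_snd fun a : Fin (Q + 1) => a = 0, pr_zero] at this
    rw [pow_succ', ← this]
    exact pr_congr fun σ => by simp [St.st]

/-- The restriction with states `ω`. -/
def xs {V : Type} {Q d : ℕ} (ω : V → St Q d) (y : V → Bool) (v : V) : Bool :=
  xor (ω v).ub ((ω v).st && y v)

/-- Bounded depth formulas become juntas. -/
theorem ac_ev (d W C C' : ℕ) : ∃ s, ∀ᶠ L : ℕ in atTop, ∀ (V : Type) [Fintype V] [DecidableEq V]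
    (f : Fn V), NN W (L ^ C) d f →
    pr (fun ω : V → St (L ^ 2) d => ¬ Jun s fun y => f (xs ω y)) ≤ 1 / (L : ℝ) ^ C' := by
  induction d generalizing W C' with
  | zero =>
    refine ⟨W, .of_forall fun L V _ _ f hf => ?_⟩
    refine (pr_false fun ω h => h (Jun.congr hf fun y => ?_)).trans_le (by positivity)
    rw [show xs ω y = y from funext fun v => by simp [xs, St.st, St.ub]]
  | succ d ih =>
    obtain ⟨s₁, h1⟩ := red_ev d W C (C' + 1) (δ := (1 / 4) ^ W) (by positivity)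
      (pow_le_one₀ (by norm_num) (by norm_num))
    obtain ⟨s, h2⟩ := ih s₁ (C' + 1)
    refine ⟨s, ?_⟩
    filter_upwards [h1, h2, ev_ge 2, eventually_ge_atTop 1] with L h1 h2 a1 a2 V _ _ f hf
    have h3 := h1 V V _ (sch1 V (L ^ 2)) (sch1_rich V (Nat.one_le_pow _ _ a2) W)
      (star_le (by linarith)) f hf
    have h4 := MP.of_bij (Equiv.arrowProdEquivProdArrow V (fun _ => Bool × Fin (L ^ 2 + 1))
      fun _ => St (L ^ 2) d).symm.bijective
      fun ω : V → St (L ^ 2) (d + 1) => ¬ Jun s fun y => f (xs ω y)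
    refine h4.symm.trans_le ((pr_cond_le _ _ (by positivity) fun ω hω => ?_).trans
      ((add_le_add_left h3 (1 / (L : ℝ) ^ (C' + 1))).trans ?_))
    · refine le_trans (pr_mono ?_) (h2 V _ (not_not.1 hω))
      refine fun ω' h h' => h (Jun.congr h' fun y => ?_)
      refine iff_of_eq (congrArg f (funext fun v => ?_))
      simp only [xs, Sch.sb, sch1, St.st, St.ub, Equiv.arrowProdEquivProdArrow_symm_apply, id]
      cases (ω v).1 <;> cases decide ((ω v).2 = 0) <;> simp
    · rw [← add_div, pow_succ, div_le_div_iff₀ (by positivity) (by positivity)]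
      nlinarith [pow_pos (show (0 : ℝ) < L by linarith) C']

/-- Change the coordinate number `m`. -/
def upd {j : ℕ} {I : Type} (f : Fin j → I) (m : ℕ) (i : I) : Fin j → I :=
  fun a => if a.val = m then i else f a

/-- The tree of AND and NOT gates above the values `ℓ`. -/
def Tr {j : ℕ} {I : Type} (ℓ : (Fin j → I) → Prop) : ℕ → (Fin j → I) → Prop
  | 0, f => ℓ f
  | m + 1, f => ∀ i, ¬ Tr ℓ m (upd f m i)

theorem Tr_cons {j : ℕ} {I : Type} (ℓ : (Fin (j + 1) → I) → Prop) (m : ℕ) (i₀ : I)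
    (g : Fin j → I) :
    Tr ℓ (m + 1) (Fin.cons i₀ g) ↔ Tr (fun g => ∀ i, ¬ ℓ (Fin.cons i g)) m g := by
  induction m generalizing g with
  | zero =>
    refine forall_congr' fun i => ?_
    rw [show upd (Fin.cons i₀ g : Fin (j + 1) → I) 0 i = Fin.cons i g from
      funext fun a => by cases a using Fin.cases <;> simp [upd]]
    rfl
  | succ m ih =>
    refine forall_congr' fun i => ?_
    rw [show upd (Fin.cons i₀ g : Fin (j + 1) → I) (m + 1) i = Fin.cons i₀ (upd g m i) from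
      funext fun a => by cases a using Fin.cases <;> simp [upd], ih]

/-- The index set of the inner gates. -/
abbrev Ix (L : ℕ) : Type := Fin L × Fin (L ^ 3)

/-- The restriction adapted to the bottom AND gates. -/
def sch2 (Bk : Type) (L Q : ℕ) : Sch (Bk × Fin L) Bk ((Fin L → Bool) × Fin (Q + 1)) where
  β := Prod.fst
  star σ := σ.2 = 0
  rd σ v b := σ.1 v.2 || (decide (σ.2 = 0) && b)
  off σ v b h := by simp [h]

theorem sch2_rich (Bk : Type) [Fintype Bk] [DecidableEq Bk] (L : ℕ) {Q : ℕ} (hQ : 1 ≤ Q) (W : ℕ) :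
    (sch2 Bk L Q).Rich W (((1 / 2) ^ (W + 1)) ^ W) := by
  intro D x hD
  refine le_trans ?_ (pr_mono (E := fun ω : Bk → (Fin L → Bool) × Fin (Q + 1) =>
    ∀ B ∈ D.image Prod.fst, (∀ a ∈ univ.filter fun a => (B, a) ∈ D, (ω B).1 a = x (B, a)) ∧
      ¬ (ω B).2 = 0) fun ω h v hv => ?_)
  · rw [pr_pi_on _ fun B (σ : (Fin L → Bool) × Fin (Q + 1)) =>
      (∀ a ∈ univ.filter fun a => (B, a) ∈ D, σ.1 a = x (B, a)) ∧ ¬ σ.2 = 0]
    refine (pow_le_pow_of_le_one (by positivity) (pow_le_one₀ (by norm_num) (by norm_num))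
      ((card_image_le (f := Prod.fst)).trans hD)).trans ?_
    rw [← prod_const]
    refine prod_le_prod (fun _ _ => by positivity) fun B _ => ?_
    rw [pr_and (fun u : Fin L → Bool => ∀ a ∈ univ.filter fun a => (B, a) ∈ D, u a = x (B, a))
      fun a : Fin (Q + 1) => ¬ a = 0, pr_bits _ fun a => x (B, a), pow_succ]
    refine mul_le_mul (pow_le_pow_of_le_one (by norm_num) (by norm_num) (le_trans ?_ hD))
      (pr_ne_zero hQ) (by norm_num) (by positivity)
    exact card_le_card_of_injOn (fun a => (B, a)) (fun a ha => by simpa using ha)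
      fun a _ b _ h => (Prod.ext_iff.1 h).2
  · have := h v.1 (mem_image_of_mem _ hv)
    exact ⟨this.2, by simpa [sch2] using this.1 v.2 (by simpa using hv)⟩

/-- The depth hierarchy theorem. -/
theorem sipser (j W C : ℕ) : ∀ᶠ L : ℕ in atTop, ∀ f₀ : Fin j → Ix L, ¬ NN W (L ^ C) (j + 1)
    fun x : (Fin j → Ix L) × Fin L → Bool => Tr (fun f => ∀ a, x (f, a) = true) j f₀ := by
  induction j generalizing W with
  | zero =>
    filter_upwards [eventually_gt_atTop W] with L hL f₀ ⟨P, _, h2, h3⟩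
    obtain ⟨g, hg⟩ := not_forall.1 ((h3 fun _ => true).1 fun _ => rfl)
    obtain ⟨hg, hg'⟩ := Classical.not_imp.1 hg
    obtain ⟨D, h4, h5⟩ := h2 g hg
    obtain ⟨v, hv, hv'⟩ := exists_mem_notMem_of_card_lt_card
      (t := univ.image fun a : Fin L => (f₀, a)) (s := D) (by
        rw [card_image_of_injective _ fun a b h => (Prod.ext_iff.1 h).2]
        simpa using h4.trans_lt hL)
    obtain ⟨a, -, rfl⟩ := mem_image.1 hv
    have h6 := (h3 fun v => decide (v ≠ (f₀, a))).2 fun h => hg' (h5 _ _ (fun i hi => ?_) (h g hg))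
    · simpa using h6 a
    · simpa using ne_of_mem_of_not_mem hi hv'
  | succ j ih =>
    obtain ⟨s, h1⟩ := red_ev (j + 1) W C 1 (δ := ((1 / 2) ^ (W + 1)) ^ W) (by positivity)
      (pow_le_one₀ (by positivity) (pow_le_one₀ (by norm_num) (by norm_num)))
    filter_upwards [h1, ih (s * 1), ev_ge 4, eventually_ge_atTop 1,
      ev_geom (ρ := 1 / 2) (by norm_num) (by norm_num) 4 (4 * (j + 1)),
      ev_geom (ρ := 2 / 3) (by norm_num) (by norm_num) 4 (4 * j + 1)] with L h1 h2 a1 a2 a3 a4 f₀ hf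
    have h3 := h1 _ _ _ (sch2 (Fin (j + 1) → Ix L) L (L ^ 2))
      (sch2_rich _ L (Nat.one_le_pow _ _ a2) W) (star_le (by linarith)) _ hf
    have h4 := pr_ex (Ω := (Fin (j + 1) → Ix L) → (Fin L → Bool) × Fin (L ^ 2 + 1)) univ
      (fun B ω => (ω B).1 = fun _ => true) (ε := (1 / 2) ^ L) fun B _ => by
        have := pr_pi_on {B} fun _ (σ : (Fin L → Bool) × Fin (L ^ 2 + 1)) => σ.1 = fun _ => true
        simp only [mem_singleton, forall_eq, prod_singleton] at this
        rw [this, pr_fst fun u : Fin L → Bool => u = fun _ => true, pr_eq]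
        simp
    have h5 := pr_ex (Ω := (Fin (j + 1) → Ix L) → (Fin L → Bool) × Fin (L ^ 2 + 1)) univ
      (fun (γ : (Fin j → Ix L) × Fin L) ω => ∀ r, ¬ (ω (Fin.cons (γ.2, r) γ.1)).2 = 0)
      (ε := (2 / 3) ^ L) fun γ _ => by
        rw [pr_all_inj (ι := fun r => (Fin.cons (γ.2, r) γ.1 : Fin (j + 1) → Ix L))
          (fun r r' h => (Prod.ext_iff.1 (Fin.cons_injective2 h).1).2)
          fun σ : (Fin L → Bool) × Fin (L ^ 2 + 1) => ¬ σ.2 = 0,
          pr_snd fun a : Fin (L ^ 2 + 1) => ¬ a = 0, pr_not, pr_zero, Fintype.card_fin, pow_succ L 2]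
        refine pow_small (by positivity) (by
          rw [div_le_one (by positivity)]
          simp) ?_ L
        rw [mul_one_div, div_le_div_iff₀ two_pos (by positivity)]
        have : (1 : ℝ) ≤ ((L ^ 2 : ℕ) : ℝ) := by exact_mod_cast Nat.one_le_pow _ _ a2
        linarith
    have c1 : ∀ m : ℕ, ((Fintype.card (Fin m → Ix L) : ℕ) : ℝ) = (L : ℝ) ^ (4 * m) := fun m => by
      simp only [Fintype.card_fun, Fintype.card_prod, Fintype.card_fin]
      push_cast
      ring
    rw [card_univ, c1] at h4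
    rw [card_univ, Fintype.card_prod, Nat.cast_mul, c1, Fintype.card_fin, ← pow_succ] at h5
    have h6 : 1 / (L : ℝ) ^ 1 ≤ 1 / 4 := by
      rw [pow_one]
      exact one_div_le_one_div_of_le (by norm_num) a1
    obtain ⟨ω, hω⟩ := exists_of_pr_lt (((pr_or _ _).trans (add_le_add h3
      ((pr_or _ _).trans (add_le_add h4 h5)))).trans_lt (by linarith))
    simp only [not_or, not_not, mem_univ, true_and, not_exists, not_forall] at hω
    obtain ⟨g1, g2, g3⟩ := hω
    choose ρ hρ using g3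
    let φ : ((Fin j → Ix L) × Fin L → Bool) → (Fin (j + 1) → Ix L) → Bool := fun y B =>
      decide ((B 0).2 = ρ (Fin.tail B, (B 0).1)) && !y (Fin.tail B, (B 0).1)
    refine h2 (Fin.tail f₀) ((g1.comp (φ := φ) fun B =>
      ⟨{(Fin.tail B, (B 0).1)}, by simp, fun x y h => ?_⟩).congr fun y => ?_)
    · simp only [φ, h _ (mem_singleton_self _), imp_self]
    · rw [← Fin.cons_self_tail f₀, Tr_cons, Fin.tail_cons]
      refine iff_of_eq (congrArg (fun ℓ => Tr ℓ j (Fin.tail f₀)) (funext fun g => propext ?_))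
      have key : ∀ i : Ix L, (∀ a, (sch2 _ L (L ^ 2)).sb ω (φ y) (Fin.cons i g, a) = true) ↔
          i.2 = ρ (g, i.1) ∧ y (g, i.1) = false := fun i => by
        obtain ⟨a, ha⟩ := Function.ne_iff.1 (g2 (Fin.cons i g))
        simp only [Sch.sb, sch2, φ, Fin.cons_zero, Fin.tail_cons, Bool.or_eq_true, Bool.and_eq_true,
          decide_eq_true_eq, Bool.not_eq_eq_eq_not, Bool.not_true]
        refine ⟨fun h => ((h a).resolve_left ha).2, fun h a => Or.inr ⟨?_, h⟩⟩
        have := hρ (g, i.1)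
        rwa [← h.1] at this
      simp only [key, Prod.forall, not_and, forall_eq, Bool.not_eq_false]

end Pool.Agent.P.MP_d1c5a4_lc
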