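import Pool.Agent.P.MP_d1c5a4_lc.Atom
import Pool.Agent.P.MP_d1c5a4_lc.Ros

/-! Codes of circuits, the simulation of a reduction, and the hard instances. -/

namespace Pool.Agent.P.MP_d1c5a4_lc

open Finset Classical

variable {ν : Type}

theorem wcs_iff (C : Cir ν) {φ : ν → ℕ} (hφ : Function.Injective φ) {x : List Bool}
    (h1 : ∀ y, (dec x).inp y ↔ ∃ u, φ u = y ∧ C.inp u) (h2 : ∀ u, (dec x).neg (φ u) ↔ C.neg u)
    (h3 : ∀ u, (dec x).dis (φ u) ↔ C.dis u)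
    (h4 : ∀ u y, (dec x).ch (φ u) y ↔ ∃ v, φ v = y ∧ C.ch u v) {r : ν} (hr : φ r = 0)
    (k t h : ℕ) : (x, k) ∈ WCS t h ↔ C.ok h t r ∧
      ∃ V : Finset ν, V.card = k ∧ (∀ u ∈ V, C.inp u) ∧ C.val V h r := by
  have h0 : ∀ u, (dec x).inp (φ u) ↔ C.inp u := fun u => by simp [h1, hφ.eq_iff]
  obtain ⟨a1, a2⟩ := C.transfer (dec x) hφ h0 h2 h3 h4 h
  have e : ∀ V : Finset ν, φ ⁻¹' (V.map ⟨φ, hφ⟩ : Finset ℕ) = V := fun V => by
    ext u
    simp [hφ.eq_iff]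
  refine and_congr (hr ▸ a1 t r) ⟨fun ⟨V, b1, b2, b3⟩ => ?_, fun ⟨V, b1, b2, b3⟩ =>
    ⟨V.map ⟨φ, hφ⟩, (card_map _).trans b1, fun y hy => ?_, hr ▸ (a2 _ r).2 (by rwa [e])⟩⟩
  · obtain ⟨V, rfl⟩ : ∃ V' : Finset ν, V'.map ⟨φ, hφ⟩ = V := ⟨V.preimage φ hφ.injOn, by
      ext y
      simp only [mem_map, mem_preimage, Function.Embedding.coeFn_mk]
      exact ⟨fun ⟨u, c1, c2⟩ => c2 ▸ c1, fun hy =>
        let ⟨u, c1, _⟩ := (h1 y).1 (b2 y hy); ⟨u, c1 ▸ hy, c1⟩⟩⟩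
    exact ⟨V, (card_map _).symm.trans b1, fun u hu => (h0 u).1 (b2 _ (mem_map_of_mem _ hu)),
      e V ▸ (a2 _ r).1 (hr ▸ b3)⟩
  · obtain ⟨u, hu, rfl⟩ := mem_map.1 hy
    exact (h0 u).2 (b2 u hu)

theorem bit_lt {x : List Bool} {a u : ℕ} (h : bit x a u) : u < x.length := by
  by_contra hc
  rw [bit, List.getD_eq_default _ _ ((not_lt.1 hc).trans (Nat.right_le_pair a u))] at h
  exact absurd h (by simp)

/-- The coded circuit on the first `N + 1` nodes. -/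
def res (x : List Bool) (N : ℕ) : Cir (Fin (N + 1)) :=
  ⟨fun u => bit x 0 u, fun u => bit x 1 u, fun u => bit x 2 u, fun u v => bit x (u + 3) v⟩

theorem wcs_res {x : List Bool} {N : ℕ} (hx : x.length ≤ N) (k t h : ℕ) :
    (x, k) ∈ WCS t h ↔ (res x N).ok h t 0 ∧ ∃ V : Finset (Fin (N + 1)), V.card = k ∧
      (∀ u ∈ V, (res x N).inp u) ∧ (res x N).val V h 0 :=
  have e : ∀ a y, bit x a y ↔ ∃ u : Fin (N + 1), u.val = y ∧ bit x a u := fun _ y =>
    ⟨fun h => ⟨⟨y, by have := bit_lt h; omega⟩, rfl, h⟩, fun ⟨_, a1, a2⟩ => a1 ▸ a2⟩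
  wcs_iff (res x N) Fin.val_injective (x := x) (e 0) (fun _ => Iff.rfl) (fun _ => Iff.rfl)
    (fun _ => e _) rfl k t h

/-- The atoms of the output of a reduction are computed by a small circuit. -/
theorem red_ps {R : List Bool × ℕ → List Bool × ℕ} {f : ℕ → ℕ} {c : ℕ}
    (h : ∀ n k, ∃ F : Set ((Fin n → Bool) → Prop), Lay (f k) F ∧ F.ncard ≤ f k * (n + 1) ^ c ∧
      (∀ j, (fun x => (R (List.ofFn x, k)).1.getD j false = true) ∈ F) ∧
      ∀ j, (fun x => (R (List.ofFn x, k)).2 = j) ∈ F) (k e : ℕ) :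
    Sz (fun n => ((n + 1) ^ c) ^ (2 * e + 3)) (UI (fun n => Fin (f k * (n + 1) ^ c + 1)) e) ∧
    PS (fun n => ((n + 1) ^ c) ^ (2 * e + 3)) fun n => {g : Fn (Fin n) | ∃ j,
      (g = fun x => (R (List.ofFn x, k)).1.getD j false = true) ∨
        g = fun x => (R (List.ofFn x, k)).2 = j} := by
  refine ⟨⟨(f k + 1) ^ (2 * e + 3), fun n => ⟨inferInstance, ?_⟩⟩, f k, f k, fun n => ?_⟩
  · have : 0 < (n + 1) ^ c := by positivity
    rw [← mul_pow]
    refine le_trans (le_of_eq ?_) (Nat.pow_le_pow_left (show f k * (n + 1) ^ c + 1 ≤ _ by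
      rw [add_mul]; omega) _)
    simp only [UI, Nat.card_eq_fintype_card, Fintype.card_prod, Fintype.card_fin, Fintype.card_pi,
      prod_const, card_univ]
    ring
  · obtain ⟨F, h1, h2, h3, h4⟩ := h n k
    exact ⟨F, h1, h2.trans (Nat.mul_le_mul_left _ (Nat.le_self_pow (by omega) _)),
      fun g ⟨j, hj⟩ => hj.elim (· ▸ h3 j) (· ▸ h4 j)⟩

theorem sim {L : Set (List Bool × ℕ)} {t H : ℕ} (h : Red L (WCS (t + 1) H)) :
    ∃ c, ∀ k, ∃ D A, ∀ s, ∃ W a, ∀ n, ∃ F : Set (Fn (Fin n)), Lay D F ∧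
      F.ncard ≤ A * (n + 1) ^ c ∧ ∀ (β : Type) (e : (β → Bool) → Fin n → Bool) (S : ℕ),
        A * (n + 1) ^ c + 2 ≤ S → (∀ g ∈ F, Jun s fun z => g (e z)) →
        NN W (S ^ a) (t + 1) fun z => (List.ofFn (e z), k) ∈ L := by
  obtain ⟨R, f, c, h1, h2, h3⟩ := h
  refine ⟨c * (2 * 2 ^ H + 3), fun k => ?_⟩
  obtain ⟨hU, hB⟩ := red_ps h3 k (2 ^ H)
  obtain ⟨D, A, h4⟩ := hB.union (ps_atoms
    (C := fun n x => res (R (List.ofFn x, k)).1 (f k * (n + 1) ^ c))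
    (hB.mono fun n g ⟨u, v, hg⟩ => by
      rcases hg with rfl | rfl | rfl | rfl <;> exact ⟨_, Or.inl rfl⟩)
    (fun _ => Fin.last _) hU (fun _ => 0) (t + 1) (f k))
  refine ⟨D, A + f k, fun s => ?_⟩
  obtain ⟨W, a, h5⟩ := tgt s H t (f k)
  refine ⟨W, a, fun n => ?_⟩
  obtain ⟨F, f1, f2, f3⟩ := h4 n
  have hl : ∀ x : Fin n → Bool, (R (List.ofFn x, k)).1.length ≤ f k * (n + 1) ^ c := fun x => by
    simpa using (h2 (List.ofFn x) k).2
  refine ⟨F, f1, f2.trans (by rw [pow_mul]; exact Nat.mul_le_mul_right _ (by omega)),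
    fun β e S hS hF => (h5 _ β (Fin.last _) 0
      (fun z => res (R (List.ofFn (e z), k)).1 (f k * (n + 1) ^ c))
      (fun z => (R (List.ofFn (e z), k)).2) S (by omega) ?_
      (fun z h => (hl _).not_gt (bit_lt h)) (fun z => (h2 _ k).1)
      (fun j => hF _ (f3 (Or.inl ⟨j, Or.inr rfl⟩)))
      fun A hA => hF _ (f3 (Or.inr ⟨A, hA, rfl⟩))).congr fun z =>
        (h1 _).trans (wcs_res (hl _) _ _ _)⟩
  have := Nat.mul_le_mul_left (f k) (Nat.le_self_pow (n := 2 * 2 ^ H + 3) (by omega) ((n + 1) ^ c))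
  rw [Fintype.card_fin]
  rw [add_mul, pow_mul] at hS
  omega

/-- The bits of the code of a circuit. -/
def encB (C : Cir ν) (φ : ν → ℕ) (p : ℕ) : Prop :=
  (∃ u, p = Nat.pair 0 (φ u) ∧ C.inp u) ∨ (∃ u, p = Nat.pair 1 (φ u) ∧ C.neg u) ∨
    (∃ u, p = Nat.pair 2 (φ u) ∧ C.dis u) ∨ ∃ u v, p = Nat.pair (φ u + 3) (φ v) ∧ C.ch u v

theorem enc_wcs (C : Cir ν) {φ : ν → ℕ} (hφ : Function.Injective φ) {N : ℕ} (hN : ∀ u, φ u < N)
    {r : ν} (hr : φ r = 0) (k t h : ℕ) :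
    (List.ofFn fun p : Fin ((N + 3) ^ 2) => decide (encB C φ p), k) ∈ WCS t h ↔ C.ok h t r ∧
      ∃ V : Finset ν, V.card = k ∧ (∀ u ∈ V, C.inp u) ∧ C.val V h r := by
  have e : ∀ a y, bit (List.ofFn fun p : Fin ((N + 3) ^ 2) => decide (encB C φ p)) a y ↔
      encB C φ (Nat.pair a y) := fun a y => by
    by_cases hp : Nat.pair a y < (N + 3) ^ 2
    · rw [bit, List.getD_eq_getElem _ _ (by simpa using hp)]
      simp
    · refine iff_of_false (fun h => ?_) fun h => hp ?_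
      · rw [bit, List.getD_eq_default _ _ (by simpa using hp)] at h
        exact absurd h (by simp)
      · have : ∀ a u, a < N + 3 → Nat.pair a (φ u) < (N + 3) ^ 2 := fun a u ha =>
          (Nat.pair_lt_max_add_one_sq _ _).trans_le (Nat.pow_le_pow_left (by
            have := hN u
            omega) _)
        rcases h with ⟨u, h, -⟩ | ⟨u, h, -⟩ | ⟨u, h, -⟩ | ⟨u, v, h, -⟩ <;> rw [h] <;>
          refine this _ _ ?_ <;> have := hN u <;> omega
  refine wcs_iff C hφ (fun y => (e _ _).trans ?_) (fun y => (e _ _).trans ?_)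
    (fun y => (e _ _).trans ?_) (fun u y => (e _ _).trans ?_) hr k t h <;>
    simp [encB, Nat.pair_eq_pair, hφ.eq_iff, eq_comm]

theorem enc_jun {γ : Type} {C : (γ → Bool) → Cir ν} {φ : ν → ℕ} (hφ : Function.Injective φ)
    (h1 : ∀ u, Jun 1 fun y => (C y).inp u) (h2 : ∀ u, Jun 1 fun y => (C y).neg u)
    (h3 : ∀ u, Jun 1 fun y => (C y).dis u) (h4 : ∀ u v, Jun 1 fun y => (C y).ch u v) (p : ℕ) :
    Jun 1 fun y => encB (C y) φ p := by
  by_cases a1 : ∃ u, p = Nat.pair 0 (φ u)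
  · obtain ⟨u, rfl⟩ := a1
    exact (h1 u).congr fun y => by simp [encB, Nat.pair_eq_pair, hφ.eq_iff]
  by_cases a2 : ∃ u, p = Nat.pair 1 (φ u)
  · obtain ⟨u, rfl⟩ := a2
    exact (h2 u).congr fun y => by simp [encB, Nat.pair_eq_pair, hφ.eq_iff]
  by_cases a3 : ∃ u, p = Nat.pair 2 (φ u)
  · obtain ⟨u, rfl⟩ := a3
    exact (h3 u).congr fun y => by simp [encB, Nat.pair_eq_pair, hφ.eq_iff]
  by_cases a4 : ∃ u v, p = Nat.pair (φ u + 3) (φ v)
  · obtain ⟨u, v, rfl⟩ := a4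
    exact (h4 u v).congr fun y => by simp [encB, Nat.pair_eq_pair, hφ.eq_iff, and_assoc]
  push Not at a1 a2 a3 a4
  exact (Jun.const 1 False).congr fun y => by simp [encB, a1, a2, a3, a4]

/-! ### The hard instances -/

variable {j : ℕ} {I A R Rw : Type}

/-- The columns: many for each variable of the tree, and many filter columns. -/
abbrev Cl (j : ℕ) (I A R : Type) : Type := Option ((Fin j → I) × A) × R

/-- The nodes: inputs, one OR gate for each column, and the AND and NOT gates of the tree. -/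
abbrev Nd (j : ℕ) (I A R Rw : Type) : Type :=
  Rw ⊕ Cl j I A R ⊕ Fin (j + 1) × (Fin j → I) × Bool

/-- The wires. -/
def srcCh (G : Rw × Cl j I A R → Bool) : Nd j I A R Rw → Nd j I A R Rw → Prop
  | .inr (.inl c), .inl x => G (x, c) = true
  | .inr (.inr p), .inr (.inl c) => p.2.2 = true ∧
      ((p.1.val = 0 ∧ ∃ a, c.1 = some (p.2.1, a)) ∨ (p.1.val = j ∧ c.1 = none))
  | .inr (.inr p), .inr (.inr q) => (p.2.2 = false ∧ q = (p.1, p.2.1, true)) ∨
      (p.2.2 = true ∧ q.2.2 = false ∧ p.1.val = q.1.val + 1 ∧ ∃ i, q.2.1 = upd p.2.1 q.1 i)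
  | _, _ => False

/-- The circuit with matrix `G`. -/
def src (G : Rw × Cl j I A R → Bool) : Cir (Nd j I A R Rw) :=
  ⟨fun u => ∃ x, u = .inl x, fun u => ∃ l f, u = .inr (.inr (l, f, false)),
    fun u => ∃ c, u = .inr (.inl c), srcCh G⟩

theorem src_jun (u v : Nd j I A R Rw) : Jun 1 fun G => (src G).ch u v := by
  rcases u with _ | _ | _ <;> rcases v with _ | _ | _ <;>
    first | exact Jun.var _ | exact Jun.const 1 _

theorem Cir.ok_of (C : Cir ν) {h t : ℕ} {u : ν} (h1 : ¬ C.neg u)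
    (h2 : ∀ v, C.ch u v → C.ok h t v) : C.ok (h + 1) (t + 1) u :=
  Or.inr ⟨fun h => absurd h h1, fun _ v hv => C.ok_mono t.le_succ (h2 v hv),
    fun _ => ⟨by omega, h2⟩⟩

theorem Cir.val_and (C : Cir ν) {V : Set ν} {h : ℕ} {u : ν} (h1 : ¬ C.inp u) (h2 : ¬ C.neg u)
    (h3 : ¬ C.dis u) : C.val V (h + 1) u ↔ ∀ v, C.ch u v → C.val V h v := by
  simp [Cir.val_succ, h1, h2, h3]

variable (G : Rw × Cl j I A R → Bool) (V : Set (Nd j I A R Rw))

theorem src_inl (h t : ℕ) (x : Rw) :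
    (src G).ok h t (.inl x) ∧ ((src G).val V h (.inl x) ↔ .inl x ∈ V) := by
  cases h
  · exact ⟨⟨x, rfl⟩, Iff.rfl⟩
  · exact ⟨Or.inl ⟨x, rfl⟩, by simp [Cir.val_succ, src]⟩

theorem src_gad (h t : ℕ) (c : Cl j I A R) : (src G).ok (h + 1) (t + 1) (.inr (.inl c)) ∧
    ((src G).val V (h + 1) (.inr (.inl c)) ↔ ∃ x, G (x, c) = true ∧ .inl x ∈ V) := by
  refine ⟨Cir.ok_of _ (by simp [src]) ?_, ?_⟩
  · rintro (x | _ | _) hv
    · exact (src_inl G V h t x).1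
    · exact hv.elim
    · exact hv.elim
  · have h1 : ¬ (src G).inp (.inr (.inl c)) := by simp [src]
    have h2 : ¬ (src G).neg (.inr (.inl c)) := by simp [src]
    have h3 : (src G).dis (.inr (.inl c)) := ⟨c, rfl⟩
    simp only [Cir.val_succ, h1, h2, h3, Sum.exists, (src_inl G V h t _).2]
    simp [src, srcCh]

theorem src_and (l : ℕ) (hl : l < j + 1) (f : Fin j → I) :
    (src G).ok (2 * l + 2) (l + 2) (.inr (.inr (⟨l, hl⟩, f, true))) ∧
    ((src G).val V (2 * l + 2) (.inr (.inr (⟨l, hl⟩, f, true))) ↔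
      Tr (fun f => ∀ a r, ∃ x, G (x, some (f, a), r) = true ∧ .inl x ∈ V) l f ∧
        (l = j → ∀ r, ∃ x, G (x, none, r) = true ∧ .inl x ∈ V)) := by
  induction l generalizing f with
  | zero =>
    refine ⟨Cir.ok_of _ (by simp [src]) ?_, ?_⟩
    · rintro (x | c | q) hv
      · exact hv.elim
      · exact (src_gad G V 0 0 c).1
      · simp [src, srcCh] at hv
    · rw [Cir.val_and _ (by simp [src]) (by simp [src]) (by simp [src])]
      simp only [Sum.forall, (src_gad G V _ 0 _).2]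
      refine ⟨fun h => ⟨fun a r => h.2.1 (some (f, a), r) ⟨rfl, Or.inl ⟨rfl, a, rfl⟩⟩,
        fun e r => h.2.1 (none, r) ⟨rfl, Or.inr ⟨e, rfl⟩⟩⟩, fun h => ⟨fun _ h => h.elim, ?_,
          fun q hq => by simp [src, srcCh] at hq⟩⟩
      rintro ⟨c, r⟩ ⟨-, ⟨-, a, rfl⟩ | ⟨e, rfl⟩⟩
      · exact h.1 a r
      · exact h.2 e r
  | succ l ih =>
    have h1 : ∀ f, (src G).ok (2 * l + 3) (l + 2) (.inr (.inr (⟨l, by omega⟩, f, false))) ∧
        ((src G).val V (2 * l + 3) (.inr (.inr (⟨l, by omega⟩, f, false))) ↔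
          ¬ Tr (fun f => ∀ a r, ∃ x, G (x, some (f, a), r) = true ∧ .inl x ∈ V) l f) := fun f => by
      have h2 : ∀ v, (src G).ch (.inr (.inr (⟨l, by omega⟩, f, false))) v ↔
          v = .inr (.inr (⟨l, by omega⟩, f, true)) := by
        rintro (x | c | q) <;> simp [src, srcCh]
      refine ⟨Or.inr ⟨fun _ => by simp [h2], fun _ v hv => (h2 v).1 hv ▸ (ih (by omega) f).1,
        fun hs => absurd ⟨_, _, fun y hy => (or_self _).mpr ((h2 y).1 hy)⟩ hs⟩, ?_⟩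
      rw [Cir.val_succ]
      simp only [h2, forall_eq, (ih (by omega) f).2, show l ≠ j by omega]
      simp [src]
    have h2 : ∀ q, (src G).ch (.inr (.inr (⟨l + 1, hl⟩, f, true))) (.inr (.inr q)) ↔
        ∃ i, q = (⟨l, by omega⟩, upd f l i, false) := by
      rintro ⟨⟨l', hl'⟩, f', b⟩
      simp only [src, srcCh, Prod.mk.injEq, Fin.mk.injEq]
      grind
    refine ⟨Cir.ok_of _ (by simp [src]) ?_, ?_⟩
    · rintro (x | c | q) hv
      · exact hv.elim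
      · exact (src_gad G V _ _ c).1
      · obtain ⟨i, rfl⟩ := (h2 q).1 hv
        exact (h1 _).1
    · rw [Cir.val_and _ (by simp [src]) (by simp [src]) (by simp [src])]
      simp only [Sum.forall, (src_gad G V _ 0 _).2, h2, forall_exists_index, forall_eq_apply_imp_iff,
        show 2 * (l + 1) + 1 = 2 * l + 3 from rfl, (h1 _).2]
      refine ⟨fun h => ⟨h.2.2, fun e r => h.2.1 (none, r) ⟨rfl, Or.inr ⟨e, rfl⟩⟩⟩,
        fun h => ⟨fun _ h => h.elim, ?_, h.1⟩⟩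
      rintro ⟨c, r⟩ ⟨-, ⟨e, -⟩ | ⟨e, rfl⟩⟩
      · exact absurd e l.succ_ne_zero
      · exact h.2 e r

theorem src_iff (k : ℕ) (f : Fin j → I) :
    ((src G).ok (2 * j + 2) (j + 2) (.inr (.inr (Fin.last j, f, true))) ∧
      ∃ V : Finset (Nd j I A R Rw), V.card = k ∧ (∀ u ∈ V, (src G).inp u) ∧
        (src G).val V (2 * j + 2) (.inr (.inr (Fin.last j, f, true)))) ↔
    ∃ V : Finset Rw, V.card = k ∧ (∀ r, ∃ x ∈ V, G (x, none, r) = true) ∧
      Tr (fun f => ∀ a r, ∃ x ∈ V, G (x, some (f, a), r) = true) j f := by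
  have e : ∀ V : Finset Rw, (src G).val (V.map Function.Embedding.inl :
      Finset (Nd j I A R Rw)) (2 * j + 2) (.inr (.inr (Fin.last j, f, true))) ↔
      (∀ r, ∃ x ∈ V, G (x, none, r) = true) ∧ Tr (fun f => ∀ a r, ∃ x ∈ V, G (x, some (f, a), r) = true) j f := fun V =>
    (src_and G _ j j.lt_succ_self f).2.trans (by simp [and_comm])
  refine ⟨fun ⟨_, V, h1, h2, h3⟩ => ?_, fun ⟨V, h1, h2⟩ => ⟨(src_and G ∅ j j.lt_succ_self f).1,
    V.map Function.Embedding.inl, (card_map _).trans h1, fun u hu => ?_, (e V).2 h2⟩⟩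
  · obtain ⟨V, rfl⟩ : ∃ V' : Finset Rw, V'.map Function.Embedding.inl = V := ⟨V.toLeft, by
      ext y
      simp only [mem_map, mem_toLeft, Function.Embedding.inl_apply]
      exact ⟨fun ⟨u, c1, c2⟩ => c2 ▸ c1, fun hy =>
        let ⟨u, c1⟩ := h2 y hy; ⟨u, c1 ▸ hy, c1.symm⟩⟩⟩
    exact ⟨V, (card_map _).symm.trans h1, (e V).1 h3⟩
  · obtain ⟨x, -, rfl⟩ := mem_map.1 hu
    exact ⟨x, rfl⟩

end Pool.Agent.P.MP_d1c5a4_lc
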