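import Pool.Agent.P.MP_d1c5a4_lc.CirL

/-! If the atoms of a circuit of weft `t` are juntas, then its weighted satisfiability is a
formula of depth `t` over juntas. -/

namespace Pool.Agent.P.MP_d1c5a4_lc

open Finset Classical

variable {ν β ι : Type}

/-- The tuples `P` (without the dummy `o`) and `Q` force the value `b` at a child of `u`. -/
def Cir.cE (C : Cir ν) (o : ν) {e : ℕ} (h : ℕ) (u : ν) (P : Fin e → ν) (b : Bool)
    (Q : Fin e → ν) : Prop :=
  ∃ v, C.ch u v ∧ C.ct {y | y ≠ o ∧ ∃ i, P i = y} {y | ∃ i, Q i = y} h v b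

/-- The properties of a circuit that are read by the simulation. -/
inductive Atom [Fintype ν] (o r : ν) (H t K : ℕ) : (Cir ν → Prop) → Prop
  | inp (u : ν) : Atom o r H t K fun C => C.inp u
  | neg (u : ν) : Atom o r H t K fun C => C.neg u
  | dis (u : ν) : Atom o r H t K fun C => C.dis u
  | ch (u v : ν) : Atom o r H t K fun C => C.ch u v
  | two (u v w : ν) : Atom o r H t K fun C => ∀ y, C.ch u y → y = v ∨ y = w
  | small (u : ν) : Atom o r H t K fun C => C.small u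
  | ok : Atom o r H t K fun C => C.ok H t r
  | inH (h : ℕ) (hh : h ≤ H) (b : Bool) (π : List (Fin (2 ^ H))) (hπ : π.length ≤ K + 1) (u : ν)
      (P : Fin (2 ^ H) → ν) (v : ν) : Atom o r H t K fun C => inH (C.cE o h u P b) π v
  | non (h : ℕ) (hh : h ≤ H) (b : Bool) (π : List (Fin (2 ^ H))) (hπ : π.length ≤ K + 1) (u : ν)
      (P : Fin (2 ^ H) → ν) :
      Atom o r H t K fun C => ∀ Q, C.cE o h u P b Q → ∃ j, inH (C.cE o h u P b) π (Q j)

theorem pad (o : ν) (D : Finset ν) {e : ℕ} (h : D.card ≤ e) :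
    ∃ P : Fin e → ν, (∀ i, P i = o ∨ P i ∈ D) ∧ ∀ y ∈ D, ∃ i, P i = y := by
  refine ⟨fun i => D.toList.getD i o, fun i => ?_, fun y hy => ?_⟩
  · by_cases hi : i.val < D.toList.length
    · right
      simp only [List.getD_eq_getElem _ _ hi]
      exact mem_toList.1 (List.getElem_mem hi)
    · exact Or.inl (List.getD_eq_default _ _ (not_lt.1 hi))
  · obtain ⟨i, hi, rfl⟩ := List.mem_iff_getElem.1 (mem_toList.2 hy)
    exact ⟨⟨i, (hi.trans_eq D.length_toList).trans_le h⟩, List.getD_eq_getElem _ _ hi⟩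

theorem Cir.val_iff (C : Cir ν) (V : Set ν) (h : ℕ) (u : ν) (b : Bool) :
    (C.val V (h + 1) u ↔ b = true) ↔ (C.inp u ∧ (u ∈ V ↔ b = true)) ∨
      (¬ C.inp u ∧ ((C.neg u ∧ C.qf u b fun v => C.val V h v ↔ (!b) = true) ∨
        (¬ C.neg u ∧ ((C.dis u ∧ C.qf u b fun v => C.val V h v ↔ b = true) ∨
          (¬ C.dis u ∧ C.qf u (!b) fun v => C.val V h v ↔ b = true))))) := by
  by_cases hi : C.inp u <;> by_cases hn : C.neg u <;> by_cases hd : C.dis u <;> cases b <;>
    simp [Cir.val_succ, Cir.qf, hi, hn, hd]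

/-- On the promise `pm`, the function `g` is a formula of depth `t`. -/
def Rep (W S a t : ℕ) (pm g : Fn β) : Prop :=
  ∃ g', NN (W * 2 ^ a) (S ^ 2 ^ a) t g' ∧ ∀ z, pm z → (g z ↔ g' z)

variable {W S a a' t : ℕ} {pm pm' f g c : Fn β}

theorem Rep.imp (h : Rep W S a t pm g) (h' : ∀ z, pm' z → pm z ∧ (f z ↔ g z)) :
    Rep W S a t pm' f :=
  let ⟨g', h1, h2⟩ := h
  ⟨g', h1, fun z hz => (h' z hz).2.trans (h2 z (h' z hz).1)⟩

section
variable (hS : 2 ≤ S)
include hS

theorem Rep.mono (h : Rep W S a t pm g) (ha : a ≤ a') : Rep W S a' t pm g :=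
  let ⟨g', h1, h2⟩ := h
  have := Nat.pow_le_pow_right two_pos ha
  ⟨g', h1.mono (Nat.mul_le_mul_left _ this) (Nat.pow_le_pow_right (by omega) this), h2⟩

theorem Rep.jun (h : Jun W g) : Rep W S 0 t pm g :=
  ⟨g, NN.of_jun (by simp; omega) (by simpa using h), fun _ _ => Iff.rfl⟩

theorem Rep.and_or (h : Rep W S a t pm f) (h' : Rep W S a' t pm g) :
    Rep W S (max a a' + 1) t pm (fun z => f z ∧ g z) ∧
      Rep W S (max a a' + 1) t pm fun z => f z ∨ g z := by
  obtain ⟨f', h1, h2⟩ := h.mono hS (le_max_left a a')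
  obtain ⟨g', h3, h4⟩ := h'.mono hS (le_max_right a a')
  have := NN.and_or (hS.trans (Nat.le_self_pow (by positivity) S)) h1 h3
  rw [← pow_add, ← mul_add, ← mul_two, ← pow_succ] at this
  exact ⟨⟨_, this.1, fun z hz => and_congr (h2 z hz) (h4 z hz)⟩, _, this.2,
    fun z hz => or_congr (h2 z hz) (h4 z hz)⟩

theorem Rep.gand (hc : Jun W c) (h : Rep W S a t (fun z => pm z ∧ c z) g) :
    Rep W S (a + 1) t pm fun z => c z ∧ g z := by
  obtain ⟨g', h1, h2⟩ := h
  have := (Rep.and_or hS (pm := pm) (Rep.jun hS hc) ⟨g', h1, fun _ _ => Iff.rfl⟩).1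
  rw [Nat.zero_max] at this
  exact this.imp fun z hz => ⟨hz, and_congr_right fun h => h2 z ⟨hz, h⟩⟩

theorem Rep.gimp (hc : Jun W c) (h : Rep W S a t (fun z => pm z ∧ c z) g) :
    Rep W S (a + 1) t pm fun z => c z → g z := by
  obtain ⟨g', h1, h2⟩ := h
  have := (Rep.and_or hS (pm := pm) (Rep.jun hS hc.not) ⟨g', h1, fun _ _ => Iff.rfl⟩).2
  rw [Nat.zero_max] at this
  exact this.imp fun z hz => ⟨hz, (imp_congr_right fun h => h2 z ⟨hz, h⟩).trans imp_iff_not_or⟩

theorem Rep.ex [Fintype ι] (hι : Fintype.card ι ≤ S) {g : ι → Fn β}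
    (h : ∀ i, Rep W S a (t + 1) pm (g i)) : Rep W S (a + 1) (t + 1) pm fun z => ∃ i, g i z := by
  choose g' h1 h2 using h
  refine ⟨_, (NN.ex univ (by omega) hι fun i _ => h1 i).mono
    (Nat.mul_le_mul_left _ (Nat.pow_le_pow_right two_pos a.le_succ)) ?_,
    fun z hz => by simp [h2 _ z hz]⟩
  rw [← pow_succ']
  exact Nat.pow_le_pow_right (by omega) (Nat.pow_lt_pow_right one_lt_two a.lt_succ_self)

theorem Rep.neg (h : Rep W S a t pm g) : Rep W S a (t + 1) pm fun z => ¬ g z :=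
  let ⟨_, h1, h2⟩ := h
  ⟨_, h1.neg (Nat.one_le_pow _ _ (by omega)), fun z hz => not_congr (h2 z hz)⟩

end

/-- The number of atoms that are read for one large gate. -/
noncomputable def na (e K : ℕ) : ℕ :=
  (K + 1) ^ e * ((List.finite_length_le (Fin e) (K + 1)).toFinset.card * (K + 1))

variable [Fintype ν] {C : (β → Bool) → Cir ν} {o r : ν} {H t₀ K s : ℕ}
  (hA : ∀ A, Atom o r H t₀ K A → Jun s fun z => A (C z)) {V : Finset ν} (hV : V.card ≤ K)
  (ho : o ∉ V)
include hA hV ho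

theorem jun_all {h : ℕ} (hh : h ≤ H) (u : ν) (b : Bool) : ∃ g, Jun (na (2 ^ H) K * s) g ∧
    ∀ z, (∀ v, (C z).ch u v → (C z).ok h 0 v) →
      ((∀ v, (C z).ch u v → ((C z).val V h v ↔ b = true)) ↔ g z) := by
  refine ⟨fun z => ∀ P ∈ Fintype.piFinset fun _ : Fin (2 ^ H) => insert o V,
    ∀ Q, (C z).cE o h u P (!b) Q → ∃ j, Q j ∈ V, ?_, fun z hz => ⟨fun h1 P hP Q ⟨v, h2, h3⟩ => ?_,
      fun h1 v h2 => ?_⟩⟩
  · refine (Jun.of_det ((Fintype.piFinset fun _ : Fin (2 ^ H) => insert o V) ×ˢ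
      (List.finite_length_le (Fin (2 ^ H)) (K + 1)).toFinset ×ˢ insertNone V)
      (g := fun p z => p.2.2.elim (∀ Q, (C z).cE o h u p.1 (!b) Q →
        ∃ j, inH ((C z).cE o h u p.1 (!b)) p.2.1 (Q j)) (inH ((C z).cE o h u p.1 (!b)) p.2.1))
      ?_ fun x y hxy h1 P hP => ?_).mono (Nat.mul_le_mul_right _ ?_)
    · rintro ⟨P, π, _ | v⟩ hp
      · exact hA _ (.non h hh _ π (by simpa using (mem_product.1 (mem_product.1 hp).2).1) u P)
      · exact hA _ (.inH h hh _ π (by simpa using (mem_product.1 (mem_product.1 hp).2).1) u P v)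
    · exact hit_det (F := (C x).cE o h u P !b) hV (fun π hπ v hv => hxy (P, π, some v) (by simp [hπ, hv, hP]))
        (fun π hπ => (hxy (P, π, none) (by simp [hπ, hP])).1) (h1 P hP)
    · rw [card_product, card_product, card_insertNone, Fintype.card_piFinset, prod_const, card_univ,
        Fintype.card_fin, na]
      have := card_insert_le o V
      gcongr
      omega
  · by_contra hc
    push Not at hc
    have := (C z).ct_sound (V := V) ?_ ?_ h3
    · rw [h1 v h2] at this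
      simp at this
    · rintro _ ⟨a1, i, rfl⟩
      exact (mem_insert.1 (Fintype.mem_piFinset.1 hP i)).resolve_left a1
    · rintro _ ⟨i, rfl⟩
      exact hc i
  · by_contra hc
    obtain ⟨D, d1, -, d2⟩ := (C z).ct_complete V (hz v h2)
    have d3 := d1.trans (Nat.pow_le_pow_right two_pos hh)
    obtain ⟨P, p1, p2⟩ := pad o _ ((card_filter_le D (· ∈ V)).trans d3)
    obtain ⟨Q, q1, q2⟩ := pad o _ ((card_filter_le D (· ∉ V)).trans d3)
    obtain ⟨j, hj⟩ := h1 P (Fintype.mem_piFinset.2 fun i =>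
      mem_insert.2 ((p1 i).imp_right fun h => (mem_filter.1 h).2)) Q ⟨v, h2, d2 _ _
        (fun y a1 a2 => And.intro (fun h : y = o => ho (h ▸ a2)) (p2 y (mem_filter.2 ⟨a1, a2⟩)))
        (fun y a1 a2 => q2 y (mem_filter.2 ⟨a1, a2⟩)) _ (by cases b <;> simpa using hc)⟩
    exact (q1 j).elim (fun h => ho (h ▸ hj)) fun h => (mem_filter.1 h).2 hj

theorem rep_val (hS : 2 ≤ S) (hν : Fintype.card ν ≤ S) (hs : s ≤ W) (hW : na (2 ^ H) K * s ≤ W)
    {h : ℕ} (hh : h ≤ H) (t : ℕ) (u : ν) (b : Bool) : Rep W S (12 * h) (t + 1)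
      (fun z => (C z).ok h (t + 1) u) fun z => (C z).val V h u ↔ b = true := by
  induction h generalizing t u b with
  | zero => exact Rep.jun hS (Jun.const W (u ∈ (V : Set ν) ↔ b = true))
  | succ h ih =>
    replace ih := ih (by omega)
    have hJ : ∀ {A}, Atom o r H t₀ K A → Jun W fun z => A (C z) := fun h => (hA _ h).mono hs
    have h1 : ∀ t b, Rep W S (12 * h + 2) (t + 1) (fun z => ∀ v, (C z).ch u v → (C z).ok h (t + 1) v)
        fun z => ∃ v, (C z).ch u v ∧ ((C z).val V h v ↔ b = true) := fun t b =>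
      Rep.ex hS hν fun v => Rep.gand hS (hJ (.ch u v))
        ((ih t v b).imp fun z hz => ⟨hz.1 v hz.2, Iff.rfl⟩)
    have h2 : ∀ b, Rep W S (12 * h + 2) (t + 1) (fun z => ∀ v, (C z).ch u v → (C z).ok h t v)
        fun z => ∀ v, (C z).ch u v → ((C z).val V h v ↔ b = true) := fun b => by
      rcases t with _ | t
      · obtain ⟨g, g1, g2⟩ := jun_all hA hV ho (h := h) (by omega) u b
        exact (((Rep.jun hS (g1.mono hW)).mono hS (Nat.zero_le _)).imp fun z hz => ⟨hz, g2 z hz⟩ :)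
      · exact ((h1 t !b).neg hS).imp fun z hz => ⟨hz, by cases b <;> simp⟩
    have h3 : ∀ v b, Rep W S (12 * h + 1) (t + 1)
        (fun z => ∀ v, (C z).ch u v → (C z).ok h (t + 1) v)
        fun z => (C z).ch u v → ((C z).val V h v ↔ b = true) := fun v b =>
      Rep.gimp hS (hJ (.ch u v)) ((ih t v b).imp fun z hz => ⟨hz.1 v hz.2, Iff.rfl⟩)
    have h4 : ∀ c b, Rep W S (12 * h + 6) (t + 1)
        (fun z => (C z).ok (h + 1) (t + 1) u ∧ ¬ (C z).inp u)
        fun z => (C z).qf u c fun v => (C z).val V h v ↔ b = true := fun c b => by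
      cases c
      · refine ((Rep.and_or hS (pm := fun z => (C z).ok (h + 1) (t + 1) u ∧ ¬ (C z).inp u)
          (Rep.ex hS hν fun v => Rep.ex hS hν fun w =>
          Rep.gand hS (hJ (.two u v w)) ((Rep.and_or hS (h3 v b) (h3 w b)).1.imp fun z hz =>
            ⟨fun y => (C z).ok_ch hz.1.1 hz.1.2, Iff.rfl⟩))
          (Rep.gand hS (hJ (.small u)).not ((h2 b).imp fun z hz =>
            ⟨((hz.1.1.resolve_left hz.1.2).2.2 hz.2).2, Iff.rfl⟩))).2.mono hS (by omega)).imp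
          fun z hz => ⟨hz, ?_⟩
        simp only [Cir.qf, Bool.false_eq_true, false_and, true_and, false_or]
        refine ⟨fun h => ?_, fun h => h.elim (fun ⟨v, w, a1, a2, a3⟩ y hy => ?_) And.right⟩
        · by_cases hs : (C z).small u
          · exact Or.inl (hs.imp fun v => Exists.imp fun w a => ⟨a, h v, h w⟩)
          · exact Or.inr ⟨hs, h⟩
        · rcases a1 y hy with rfl | rfl
          · exact a2 hy
          · exact a3 hy
      · exact ((h1 t b).mono hS (by omega)).imp fun z hz =>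
          ⟨fun y => (C z).ok_ch hz.1 hz.2, by simp [Cir.qf]⟩
    exact ((Rep.and_or hS
      (Rep.gand hS (hJ (.inp u)) (Rep.jun hS (Jun.const W (u ∈ (V : Set ν) ↔ b = true))))
      (Rep.gand hS (hJ (.inp u)).not (Rep.and_or hS
        (Rep.gand hS (hJ (.neg u)) ((h4 b !b).imp fun z hz => ⟨hz.1, Iff.rfl⟩))
        (Rep.gand hS (hJ (.neg u)).not (Rep.and_or hS
          (Rep.gand hS (hJ (.dis u)) ((h4 b b).imp fun z hz => ⟨hz.1.1, Iff.rfl⟩))
          (Rep.gand hS (hJ (.dis u)).not ((h4 (!b) b).imp fun z hz =>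
            ⟨hz.1.1, Iff.rfl⟩))).2)).2)).2.mono hS (by omega)).imp
      fun z hz => ⟨hz, (C z).val_iff V h u b⟩

omit hA hV ho in
theorem tgt (s H t K : ℕ) : ∃ W a, ∀ (ν β : Type) [Fintype ν] (o r : ν) (C : (β → Bool) → Cir ν)
    (κ : (β → Bool) → ℕ) (S : ℕ), 2 ≤ S → Fintype.card ν ≤ S → (∀ z, ¬ (C z).inp o) →
    (∀ z, κ z ≤ K) → (∀ k, Jun s fun z => κ z = k) →
    (∀ A, Atom o r H (t + 1) K A → Jun s fun z => A (C z)) →
    NN W (S ^ a) (t + 1) fun z => (C z).ok H (t + 1) r ∧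
      ∃ V : Finset ν, V.card = κ z ∧ (∀ u ∈ V, (C z).inp u) ∧ (C z).val V H r := by
  refine ⟨(na (2 ^ H) K * s + (s + (s + K * s))) * 2 ^ (12 * H + 1), K + 2 ^ (12 * H + 1),
    fun ν β _ o r C κ S hS hν ho hK hκ hA => ?_⟩
  have h1 : ∀ P : Fin K → ν, Rep (na (2 ^ H) K * s + (s + (s + K * s))) S (12 * H + 1) (t + 1)
      (fun _ => True) fun z => ((C z).ok H (t + 1) r ∧ κ z = ((univ.image P).erase o).card ∧
        ∀ u ∈ (univ.image P).erase o, (C z).inp u) ∧
        ((C z).val ((univ.image P).erase o : Finset ν) H r ↔ true = true) := fun P => by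
    have hV : ((univ.image P).erase o).card ≤ K :=
      card_erase_le.trans (card_image_le.trans (by simp))
    refine Rep.gand hS ?_ ((rep_val hA hV (notMem_erase _ _) hS hν (by omega) (by omega) le_rfl
      t r true).imp fun z hz => ⟨hz.2.1, Iff.rfl⟩)
    refine (Jun.two (hA _ .ok) (Jun.two (hκ ((univ.image P).erase o).card)
      (Jun.of_det ((univ.image P).erase o) (fun u _ => hA _ (.inp u))
        (f := fun z => ∀ u ∈ (univ.image P).erase o, (C z).inp u)
        fun x y h1 h2 u hu => (h1 u hu).1 (h2 u hu))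
      (k := fun z => κ z = ((univ.image P).erase o).card ∧
        ∀ u ∈ (univ.image P).erase o, (C z).inp u) (by tauto)) (by tauto)).mono ?_
    have := Nat.mul_le_mul_right s hV
    omega
  choose g g1 g2 using h1
  rw [pow_add S]
  refine (NN.ex univ (Nat.one_le_pow K S (by omega)) ?_ fun P _ => g1 P).congr fun z => ?_
  · simpa using Nat.pow_le_pow_left hν K
  · simp only [← g2 _ z trivial, mem_univ, true_and, iff_true]
    refine ⟨fun ⟨a1, V, a2, a3, a4⟩ => ?_, fun ⟨P, ⟨a1, a2, a3⟩, a4⟩ => ⟨a1, _, a2.symm, a3, a4⟩⟩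
    obtain ⟨P, p1, p2⟩ := pad o V (a2.trans_le (hK z))
    have : (univ.image P).erase o = V := by
      ext y
      simp only [mem_erase, mem_image, mem_univ, true_and]
      exact ⟨fun ⟨b1, i, b2⟩ => b2 ▸ (p1 i).resolve_left (b2 ▸ b1),
        fun hy => ⟨fun h => ho z (h ▸ a3 y hy), p2 y hy⟩⟩
    exact ⟨P, by rw [this]; exact ⟨⟨a1, a2.symm, a3⟩, a4⟩⟩

end Pool.Agent.P.MP_d1c5a4_lc
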